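import Pool.Agent.N805.FL2
import Pool.Agent.H506R3.Mag.Boch2

/-! # Pair correlation with a positive definite defect: the limit measure -/

set_option autoImplicit false

open MeasureTheory Set Filter Topology
open scoped NNReal ENNReal

namespace Pool.Agent.N805.DT

open Pool.Agent.Y749.Rig

variable {μ : Measure ℝ} {C : ℝ} {g : ℝ → ℝ}

/-- the measure `m δ_0 + g dx` -/
noncomputable def mg (m : ℝ) (g : ℝ → ℝ) : Measure ℝ :=
  ENNReal.ofReal m • Measure.dirac 0 + volume.withDensity fun x => ENNReal.ofReal (g x)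

lemma mg_integral {m : ℝ} (hm : 0 ≤ m) (hg : Continuous g) (hg0 : ∀ x, 0 ≤ g x)
    (hg1 : ∀ x, g x ≤ 1) {f : ℝ → ℝ} (hf : Continuous f) (hq : QD f) :
    ∫ x, f x ∂(mg m g) = m * f 0 + ∫ x, f x * g x := by
  have hi : Integrable fun x => f x * g x := by
    refine (qd_int hf hq).mul_bdd (c := 1) hg.aestronglyMeasurable (ae_of_all _ fun x => ?_)
    rw [Real.norm_eq_abs, abs_of_nonneg (hg0 x)]
    exact hg1 x
  have hgm : Measurable g := hg.measurable
  unfold mg
  rw [integral_add_measure, integral_smul_measure, integral_dirac,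
    integral_withDensity_eq_integral_toReal_smul₀
    hgm.ennreal_ofReal.aemeasurable (ae_of_all _ fun x => ENNReal.ofReal_lt_top)]
  · congr 1
    · rw [ENNReal.toReal_ofReal hm, smul_eq_mul]
    · refine integral_congr_ae (ae_of_all _ fun x => ?_)
      simp only [smul_eq_mul]
      rw [ENNReal.toReal_ofReal (hg0 x), mul_comm]
  · refine Integrable.smul_measure (integrable_dirac (by simp)) ENNReal.ofReal_ne_top
  · rw [integrable_withDensity_iff_integrable_smul₀' hgm.ennreal_ofReal.aemeasurable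
      (ae_of_all _ fun x => ENNReal.ofReal_lt_top)]
    refine hi.congr (ae_of_all _ fun x => ?_)
    simp only [smul_eq_mul]
    rw [ENNReal.toReal_ofReal (hg0 x), mul_comm]

lemma mg_apply (m : ℝ) (g : ℝ → ℝ) (a b : ℝ) : mg m g (Icc a b) =
    ENNReal.ofReal m * (Icc a b).indicator 1 0 + ∫⁻ x in Icc a b, ENNReal.ofReal (g x) := by
  unfold mg
  rw [Measure.add_apply, Measure.smul_apply, Measure.dirac_apply' _ measurableSet_Icc,
    withDensity_apply _ measurableSet_Icc, smul_eq_mul]

lemma lint_Icc (hg : Continuous g) (hg0 : ∀ x, 0 ≤ g x) {a b : ℝ} (hab : a ≤ b) :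
    ∫⁻ x in Icc a b, ENNReal.ofReal (g x) = ENNReal.ofReal (∫ x in a..b, g x) := by
  rw [intervalIntegral.integral_of_le hab, ← integral_Icc_eq_integral_Ioc,
    ofReal_integral_eq_lintegral_ofReal (hg.continuousOn.integrableOn_Icc)
      (ae_of_all _ fun x => hg0 x)]

lemma half (hfin : ∀ a b, μ (Icc a b) < ⊤) (hg : Continuous g)
    (hw : ∀ α β : ℝ, 0 < α → α ≤ β → μ.real (Icc α β) = ∫ x in α..β, g x) {b : ℝ} (hb : 0 < b) :
    μ.real (Ioc 0 b) = ∫ x in (0 : ℝ)..b, g x := by
  have h3 := tendsto_one_div_add_atTop_nhds_zero_nat (𝕜 := ℝ)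
  have h2 : ⋃ n : ℕ, Icc (b * (1 / ((n : ℝ) + 1))) b = Ioc 0 b := by
    ext x
    simp only [mem_iUnion, mem_Icc, mem_Ioc]
    constructor
    · rintro ⟨n, hx⟩
      have : (0 : ℝ) < b * (1 / ((n : ℝ) + 1)) := by positivity
      exact ⟨by linarith [hx.1], hx.2⟩
    · intro hx
      have hpos : 0 < x / b := div_pos hx.1 hb
      obtain ⟨n, hn⟩ := (h3.eventually (ge_mem_nhds hpos)).exists
      refine ⟨n, ?_, hx.2⟩
      calc b * (1 / ((n : ℝ) + 1)) ≤ b * (x / b) := by gcongr
        _ = x := by field_simp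
  have h4 := tendsto_measure_iUnion_atTop (μ := μ)
    (s := fun n : ℕ => Icc (b * (1 / ((n : ℝ) + 1))) b) ?_
  · rw [h2] at h4
    have h5 := (ENNReal.tendsto_toReal (((measure_mono (Ioc_subset_Icc_self
      (a := (0 : ℝ)) (b := b))).trans_lt (hfin _ _)).ne)).comp h4
    have h6 : Tendsto (fun n : ℕ => ∫ x in (b * (1 / ((n : ℝ) + 1)))..b, g x) atTop
        (𝓝 (∫ x in (0 : ℝ)..b, g x)) := by
      have h7 : Continuous fun a : ℝ => ∫ x in b..a, g x :=
        intervalIntegral.continuous_primitive (fun a c => hg.intervalIntegrable a c) b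
      have h7' : Continuous fun a : ℝ => ∫ x in a..b, g x := by
        refine h7.neg.congr fun a => ?_
        exact (intervalIntegral.integral_symm _ _).symm
      have h8 := (h7'.tendsto (b * 0)).comp (h3.const_mul b)
      rw [mul_zero] at h8
      exact h8
    refine tendsto_nhds_unique h5 (h6.congr fun n => ?_)
    have h9 : 1 / ((n : ℝ) + 1) ≤ 1 := by
      rw [div_le_one (by positivity)]
      linarith [(Nat.cast_nonneg n : (0 : ℝ) ≤ n)]
    exact (hw _ _ (by positivity) (by nlinarith)).symm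
  · intro m n hmn
    have h5 : 1 / ((n : ℝ) + 1) ≤ 1 / ((m : ℝ) + 1) := by
      apply one_div_le_one_div_of_le (by positivity)
      have : (m : ℝ) ≤ n := by exact_mod_cast hmn
      linarith
    exact Icc_subset_Icc (by gcongr) le_rfl

/-- the measure is determined by the windows away from zero and the mass at zero -/
theorem meas_mg (hC : 0 ≤ C) (h : Bdd C μ) (he : Ev μ) (hg : Continuous g)
    (hge : ∀ x, g (-x) = g x) (hg0 : ∀ x, 0 ≤ g x)
    (hw : ∀ α β : ℝ, 0 < α → α ≤ β → μ.real (Icc α β) = ∫ x in α..β, g x) :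
    μ = mg (μ.real {0}) g := by
  have hfin : ∀ a b, μ (Icc a b) < ⊤ := h.lt_top
  obtain ⟨ν, hν⟩ : ∃ ν : Measure ℝ, ν = μ.map (fun x => -x) := ⟨_, rfl⟩
  have hνa : ∀ S : Set ℝ, MeasurableSet S → ν S = μ ((fun x => -x) ⁻¹' S) := by
    intro S hS
    rw [hν, Measure.map_apply measurable_neg hS]
  have hνI : ∀ a b : ℝ, ν (Icc a b) = μ (Icc (-b) (-a)) := by
    intro a b
    rw [hνa _ measurableSet_Icc]
    congr 1
    ext x
    simp only [mem_preimage, mem_Icc]
    constructor <;> intro hx <;> constructor <;> linarith [hx.1, hx.2]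
  have hνfin : ∀ a b, ν (Icc a b) < ⊤ := fun a b => by rw [hνI]; exact hfin _ _
  have hνw : ∀ α β : ℝ, 0 < α → α ≤ β → ν.real (Icc α β) = ∫ x in α..β, g x := by
    intro α β h1 h2
    rw [Measure.real, hνI]
    exact (ev_eq hC h he α β).trans (hw α β h1 h2)
  have hneg : ∀ b : ℝ, 0 < b → μ.real (Ico (-b) 0) = ∫ x in (0 : ℝ)..b, g x := by
    intro b hb
    rw [← half hνfin hg hνw hb, Measure.real, Measure.real, hνa _ measurableSet_Ioc]
    congr 2
    ext x
    simp only [mem_preimage, mem_Ioc, mem_Ico]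
    constructor <;> intro hx <;> constructor <;> linarith [hx.1, hx.2]
  have hpos : ∀ b : ℝ, 0 ≤ b → μ.real (Ioc 0 b) = ∫ x in (0 : ℝ)..b, g x := by
    intro b hb
    rcases hb.eq_or_lt with h1 | h1
    · rw [← h1]; simp
    · exact half hfin hg hw h1
  have hneg' : ∀ b : ℝ, 0 ≤ b → μ.real (Ico (-b) 0) = ∫ x in (0 : ℝ)..b, g x := by
    intro b hb
    rcases hb.eq_or_lt with h1 | h1
    · rw [← h1]; simp
    · exact hneg b h1
  have hrefl : ∀ a b : ℝ, ∫ x in (-b)..(-a), g x = ∫ x in a..b, g x := by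
    intro a b
    have := intervalIntegral.integral_comp_neg (a := a) (b := b) g
    rw [← this]
    exact intervalIntegral.integral_congr fun x _ => hge x
  refine Measure.ext_of_Icc' μ _ (fun a b _ => (hfin a b).ne) fun a b hab => ?_
  rw [mg_apply, lint_Icc hg hg0 hab]
  have hnn : ∀ a b : ℝ, a ≤ b → 0 ≤ ∫ x in a..b, g x := fun a b hab =>
    intervalIntegral.integral_nonneg hab fun x _ => hg0 x
  have hr : ∀ S : Set ℝ, μ S ≠ ⊤ → μ S = ENNReal.ofReal (μ.real S) := fun S hS =>
    (ENNReal.ofReal_toReal hS).symm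
  rcases lt_or_ge 0 a with h1 | h1
  · rw [indicator_of_notMem (fun hx => absurd hx.1 (not_le.2 h1)), mul_zero, zero_add,
      hr _ (hfin a b).ne, hw a b h1 hab]
  rcases lt_or_ge b 0 with h2 | h2
  · rw [indicator_of_notMem (fun hx => absurd hx.2 (not_le.2 h2)), mul_zero, zero_add,
      hr _ (hfin a b).ne]
    have h3 := ev_eq hC h he (-b) (-a)
    rw [neg_neg, neg_neg] at h3
    rw [h3, hw _ _ (by linarith) (by linarith), hrefl]
  · rw [indicator_of_mem (show (0 : ℝ) ∈ Icc a b from ⟨h1, h2⟩), Pi.one_apply, mul_one]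
    have hsplit : Icc a b = (Ico a 0 ∪ {0}) ∪ Ioc 0 b := by
      ext x
      simp only [mem_Icc, mem_union, mem_Ico, mem_singleton_iff, mem_Ioc]
      constructor
      · intro hx
        rcases lt_trichotomy x 0 with h3 | h3 | h3
        · left; left; exact ⟨hx.1, h3⟩
        · left; right; exact h3
        · right; exact ⟨h3, hx.2⟩
      · rintro ((hx | hx) | hx)
        · exact ⟨hx.1, by linarith [hx.2]⟩
        · rw [hx]; exact ⟨h1, h2⟩
        · exact ⟨by linarith [hx.1], hx.2⟩
    have hd1 : Disjoint (Ico a 0 ∪ {0}) (Ioc 0 b) := by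
      rw [Set.disjoint_left]
      rintro x (hx | hx) hx2
      · linarith [hx.2, hx2.1]
      · rw [mem_singleton_iff] at hx
        linarith [hx2.1]
    have hd2 : Disjoint (Ico a 0) {(0 : ℝ)} := by
      rw [Set.disjoint_left]
      intro x hx hx2
      rw [mem_singleton_iff] at hx2
      linarith [hx.2]
    have f1 : μ (Ico a 0) ≠ ⊤ := ((measure_mono Ico_subset_Icc_self).trans_lt (hfin _ _)).ne
    have f2 : μ {(0 : ℝ)} ≠ ⊤ := by
      have := hfin 0 0
      rw [Icc_self] at this
      exact this.ne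
    have f3 : μ (Ioc 0 b) ≠ ⊤ := ((measure_mono Ioc_subset_Icc_self).trans_lt (hfin _ _)).ne
    rw [hsplit, measure_union hd1 measurableSet_Ioc, measure_union hd2 (measurableSet_singleton _),
      hr _ f1, hr _ f2, hr _ f3]
    have e1 := hneg' (-a) (by linarith)
    rw [neg_neg] at e1
    rw [e1, hpos b h2]
    have e2 : ∫ x in a..b, g x = (∫ x in (0 : ℝ)..(-a), g x) + ∫ x in (0 : ℝ)..b, g x := by
      rw [← intervalIntegral.integral_add_adjacent_intervals (b := 0)
        (hg.intervalIntegrable a 0) (hg.intervalIntegrable 0 b)]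
      congr 1
      have := hrefl 0 (-a)
      rw [neg_neg, neg_zero] at this
      exact this
    rw [e2, ENNReal.ofReal_add (hnn _ _ (by linarith)) (hnn _ _ h2)]
    rw [add_comm (ENNReal.ofReal (∫ x in (0 : ℝ)..(-a), g x)), add_assoc]

variable {M : ℝ → Measure ℝ} {U : Ultrafilter ℝ}

/-- the windows of the limit measure -/
lemma win_lim (hC : 0 ≤ C) (hM : ∀ᶠ T in atTop, Bdd C (M T)) (hU : (U : Filter ℝ) ≤ atTop)
    (hμ : ∀ f : ℝ → ℝ, Continuous f → QD f →
      Integrable f μ ∧ Tendsto (fun T => ∫ x, f x ∂(M T)) U (𝓝 (∫ x, f x ∂μ)))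
    (hg : Continuous g) (hg0 : ∀ x, 0 ≤ g x) (hg1 : ∀ x, g x ≤ 1)
    (hN : ∀ α β : ℝ, 0 < α → α < β →
      Tendsto (fun T => (M T).real (Icc α β)) U (𝓝 (∫ x in α..β, g x)))
    {α β : ℝ} (h0 : 0 < α) (hab : α ≤ β) : μ.real (Icc α β) = ∫ x in α..β, g x := by
  have b1 := bdd_limit hU hC hM hμ
  refine le_antisymm ?_ ?_
  · refine le_of_forall_pos_le_add fun ε hε => ?_
    obtain ⟨δ, hδ⟩ : ∃ δ : ℝ, δ = min (α / 2) (ε / 2) := ⟨_, rfl⟩
    have hδ0 : 0 < δ := by rw [hδ]; exact lt_min (by positivity) (by positivity)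
    have hδ1 : δ ≤ α / 2 := by rw [hδ]; exact min_le_left _ _
    have hδ2 : δ ≤ ε / 2 := by rw [hδ]; exact min_le_right _ _
    have h1 := lim_upper (C := C) hC hM hU hμ (α := α - δ) (β := β + δ)
      (K := ∫ x in (α - δ)..(β + δ), g x)
      fun ε hε => (hN _ _ (by linarith) (by linarith)).eventually (ge_mem_nhds (by linarith))
    have h2 : μ.real (Icc α β) ≤ μ.real (Ioo (α - δ) (β + δ)) := by
      refine measureReal_mono (fun x hx => ⟨by linarith [hx.1], by linarith [hx.2]⟩) ?_
      exact ((measure_mono Ioo_subset_Icc_self).trans_lt (b1.lt_top _ _)).ne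
    have h3 : ∫ x in (α - δ)..(β + δ), g x ≤ (∫ x in α..β, g x) + 2 * δ := by
      rw [← intervalIntegral.integral_add_adjacent_intervals (hg.intervalIntegrable (α - δ) α)
        (hg.intervalIntegrable α (β + δ)),
        ← intervalIntegral.integral_add_adjacent_intervals (hg.intervalIntegrable α β)
        (hg.intervalIntegrable β (β + δ))]
      have h4 : ∫ x in (α - δ)..α, g x ≤ δ := by
        calc ∫ x in (α - δ)..α, g x ≤ ∫ x in (α - δ)..α, (1 : ℝ) :=
              intervalIntegral.integral_mono_on (by linarith) (hg.intervalIntegrable _ _)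
                (by simp) fun x _ => hg1 x
          _ = δ := by simp
      have h5 : ∫ x in β..(β + δ), g x ≤ δ := by
        calc ∫ x in β..(β + δ), g x ≤ ∫ x in β..(β + δ), (1 : ℝ) :=
              intervalIntegral.integral_mono_on (by linarith) (hg.intervalIntegrable _ _)
                (by simp) fun x _ => hg1 x
          _ = δ := by simp
      linarith
    linarith
  · rcases hab.eq_or_lt with h1 | h1
    · rw [← h1]; simp
    · exact lim_lower (C := C) hC hM hU hμ fun ε hε => (hN _ _ h0 h1).eventually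
        (le_mem_nhds (by linarith))

end Pool.Agent.N805.DT
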