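import Pool.Agent.N805.DT.A
import Pool.Agent.N805.FL6

/-! # Pair correlation with a positive definite defect: identification -/

set_option autoImplicit false

open MeasureTheory Set Filter Topology
open scoped NNReal ENNReal FourierTransform

namespace Pool.Agent.N805.DT

open Pool.Agent.Y749.Rig
open Pool.Agent.H506R3.Mag (PSDFun ct ct_cont ct_int fourier_nonneg fourier_eq_ct)
open Pool.Agent.N805.FL (cc_tr fl_tr_ge)

lemma ct_fl (f : ℝ → ℝ) : ct f = fl f := by
  funext ξ
  unfold ct fl
  refine integral_congr_ae (ae_of_all _ fun x => ?_)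
  simp only
  congr 2
  simp only [RCLike.inner_apply, conj_trivial]
  ring

lemma inv_gen {ψ : ℝ → ℝ} (hc : Continuous ψ) (hi0 : Integrable ψ) (he : ∀ x, ψ (-x) = ψ x)
    (hi1 : Integrable (fl ψ)) (α : ℝ) : fl (fl ψ) α = ψ α := by
  have hi : Integrable (fun α : ℝ => (ψ α : ℂ)) := hi0.ofReal
  have e1 : 𝓕 (fun α : ℝ => (ψ α : ℂ)) = fun x => ((fl ψ x : ℝ) : ℂ) :=
    funext fun x => four_eq hi0 he x
  have hi2 : Integrable (𝓕 (fun α : ℝ => (ψ α : ℂ))) := by
    rw [e1]; exact hi1.ofReal
  have hc' : Continuous (fun α : ℝ => (ψ α : ℂ)) := Complex.continuous_ofReal.comp hc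
  have h1 := congrFun (hc'.fourierInv_fourier_eq hi hi2) (-α)
  rw [Real.fourierInv_eq_fourier_neg, neg_neg, e1, four_eq hi1 (fun x => fl_even x)] at h1
  rw [he] at h1
  exact_mod_cast h1

/-- the second difference of the tents -/
lemma tent2 {x0 δ : ℝ} (h0 : 0 < δ) (h1 : δ < x0) (ξ : ℝ) :
    (x0 + δ) ^ 2 * tr (x0 + δ) ξ - 2 * (x0 ^ 2 * tr x0 ξ) + (x0 - δ) ^ 2 * tr (x0 - δ) ξ =
      max 0 (δ - |(|ξ| - x0)|) := by
  rw [tent_eq (by linarith), tent_eq (by linarith), tent_eq (by linarith)]
  have ha := abs_nonneg ξ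
  obtain ⟨a, hA⟩ : ∃ a : ℝ, a = |ξ| := ⟨_, rfl⟩
  rw [← hA] at ha ⊢
  rcases le_or_gt a x0 with h2 | h2
  · rw [abs_of_nonpos (by linarith : a - x0 ≤ 0), max_eq_right (by linarith : 0 ≤ x0 + δ - a),
      max_eq_right (by linarith : 0 ≤ x0 - a)]
    rcases le_or_gt a (x0 - δ) with h3 | h3
    · rw [max_eq_right (by linarith : 0 ≤ x0 - δ - a), max_eq_left (by linarith)]
      ring
    · rw [max_eq_left (by linarith : x0 - δ - a ≤ 0), max_eq_right (by linarith)]
      ring
  · rw [abs_of_pos (by linarith : 0 < a - x0), max_eq_left (by linarith : x0 - a ≤ 0),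
      max_eq_left (by linarith : x0 - δ - a ≤ 0)]
    rw [show x0 + δ - a = δ - (a - x0) by ring]
    ring

lemma tent_null {r : ℝ → ℝ} (hr : Continuous r) (he : ∀ x, r (-x) = r x)
    (h : ∀ c : ℝ, 0 < c → c < 1 → ∫ x, tr c x * r x = 0) {x0 : ℝ} (h0 : 0 < x0) (h1 : x0 < 1) :
    r x0 ≤ 0 := by
  by_contra hcon
  push Not at hcon
  have hnear : ∀ᶠ x in 𝓝 x0, 0 < r x := hr.continuousAt.eventually (lt_mem_nhds hcon)
  obtain ⟨ε, hε, hball⟩ := Metric.eventually_nhds_iff.1 hnear
  obtain ⟨δ, hδ⟩ : ∃ δ : ℝ, δ = min ε (min (x0 / 2) ((1 - x0) / 2)) := ⟨_, rfl⟩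
  have hδ0 : 0 < δ := by
    rw [hδ]; exact lt_min hε (lt_min (by linarith) (by linarith))
  have hδ1 : δ ≤ ε := by rw [hδ]; exact min_le_left _ _
  have hδ2 : δ ≤ x0 / 2 := by rw [hδ]; exact (min_le_right _ _).trans (min_le_left _ _)
  have hδ3 : δ ≤ (1 - x0) / 2 := by rw [hδ]; exact (min_le_right _ _).trans (min_le_right _ _)
  have hi : ∀ c : ℝ, 0 < c → Integrable fun x => tr c x * r x := by
    intro c hc
    refine Continuous.integrable_of_hasCompactSupport ((tr_cont c).mul hr) ?_
    exact (adm_tr hc).hcs.mul_right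
  have hsum : ∫ x, max 0 (δ - |(|x| - x0)|) * r x = 0 := by
    have e : ∀ x, max 0 (δ - |(|x| - x0)|) * r x = (x0 + δ) ^ 2 * (tr (x0 + δ) x * r x) -
        2 * x0 ^ 2 * (tr x0 x * r x) + (x0 - δ) ^ 2 * (tr (x0 - δ) x * r x) := by
      intro x
      rw [← tent2 hδ0 (by linarith) x]
      ring
    simp_rw [e]
    have j1 : Integrable fun x => (x0 + δ) ^ 2 * (tr (x0 + δ) x * r x) -
        2 * x0 ^ 2 * (tr x0 x * r x) :=
      ((hi _ (by linarith)).const_mul _).sub ((hi _ h0).const_mul _)
    rw [integral_add j1 ((hi _ (by linarith)).const_mul _),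
      integral_sub ((hi _ (by linarith)).const_mul _) ((hi _ h0).const_mul _),
      integral_const_mul, integral_const_mul, integral_const_mul,
      h _ (by linarith) (by linarith), h _ h0 h1, h _ (by linarith) (by linarith)]
    ring
  have hcont : Continuous fun x : ℝ => max 0 (δ - |(|x| - x0)|) * r x := by fun_prop
  have hpos : ∀ x : ℝ, 0 ≤ max 0 (δ - |(|x| - x0)|) * r x := by
    intro x
    rcases le_or_gt δ |(|x| - x0)| with h2 | h2
    · rw [max_eq_left (by linarith), zero_mul]
    · have h3 : 0 < r x := by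
        have h4 : 0 < r |x| := by
          refine hball ?_
          rw [Real.dist_eq]
          linarith
        rcases abs_choice x with h5 | h5
        · rwa [h5] at h4
        · rwa [h5, he] at h4
      positivity
  have hsupp : HasCompactSupport fun x : ℝ => max 0 (δ - |(|x| - x0)|) * r x := by
    refine HasCompactSupport.of_support_subset_isCompact (isCompact_Icc (a := (-1 : ℝ)) (b := 1)) ?_
    intro x hx
    rw [Function.mem_support] at hx
    by_contra hx2
    apply hx
    have h3 : 1 < |x| := by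
      rw [mem_Icc, ← abs_le] at hx2
      exact not_le.1 hx2
    rw [max_eq_left, zero_mul]
    rw [abs_of_pos (by linarith)]
    linarith
  have hx0 : max 0 (δ - |(|x0| - x0)|) * r x0 ≠ 0 := by
    rw [abs_of_pos h0, sub_self, abs_zero, sub_zero, max_eq_right hδ0.le]
    positivity
  have hp := Continuous.integral_pos_of_hasCompactSupport_nonneg_nonzero (μ := volume) hcont hsupp
    hpos hx0
  rw [hsum] at hp
  exact lt_irrefl _ hp

/-- if the pairings of a positive definite function with the tents are those of a pair correlation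
with positive density, the function is the square of the sine kernel -/
theorem pd_ident {h : ℝ → ℝ} (hc : Continuous h) (he : ∀ x, h (-x) = h x) (h1 : h 0 = 1)
    (hnn : ∀ x, 0 ≤ h x) (hb : ∀ x, h x ≤ 1) (hpsd : PSDFun h) {m : ℝ} (hm : 1 ≤ m)
    (hid : ∀ c : ℝ, 0 < c → c < 1 → ∫ x, fl (tr c) x * h x = m - c / 3) :
    m = 1 ∧ ∀ x, h x = fl (tr 1) x := by
  have hpi := Real.pi_pos
  have habs : ∀ x, |h x| ≤ 1 := fun x => by rw [abs_of_nonneg (hnn x)]; exact hb x
  have hfi : ∀ c : ℝ, 0 < c → Integrable fun x => fl (tr c) x * h x := by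
    intro c hc'
    refine (fl_int (adm_tr hc')).mul_bdd (c := 1) hc.aestronglyMeasurable (ae_of_all _ fun x => ?_)
    rw [Real.norm_eq_abs]
    exact habs x
  -- integrability
  have hint : Integrable h := by
    refine integrable_of_intervalIntegral_norm_bounded (l := atTop) (a := fun n : ℕ => -((n : ℝ) + 1))
      (b := fun n : ℕ => (n : ℝ) + 1) (Real.pi ^ 2 / 4 * m) (fun n => ?_) ?_ ?_ ?_
    · exact hc.continuousOn.integrableOn_Icc.mono_set Ioc_subset_Icc_self
    · exact tendsto_neg_atTop_atBot.comp (tendsto_atTop_add_const_right _ _ tendsto_natCast_atTop_atTop)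
    · exact tendsto_atTop_add_const_right _ _ tendsto_natCast_atTop_atTop
    · filter_upwards [] with n
      have hn : (0 : ℝ) < (n : ℝ) + 1 := by positivity
      obtain ⟨c, hcd⟩ : ∃ c : ℝ, c = 1 / (2 * ((n : ℝ) + 1)) := ⟨_, rfl⟩
      have hc0 : 0 < c := by rw [hcd]; positivity
      have hc1 : c < 1 := by
        rw [hcd, div_lt_one (by positivity)]
        linarith [(Nat.cast_nonneg n : (0 : ℝ) ≤ n)]
      have h3 : ∫ x in (-((n : ℝ) + 1))..((n : ℝ) + 1), ‖h x‖ ≤
          ∫ x in (-((n : ℝ) + 1))..((n : ℝ) + 1), Real.pi ^ 2 / 4 * (fl (tr c) x * h x) := by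
        refine intervalIntegral.integral_mono_on (by linarith) (hc.norm.intervalIntegrable _ _)
          ((((fl_cont (tr_int hc0)).mul hc).const_smul (Real.pi ^ 2 / 4)).intervalIntegrable _ _)
          fun x hx => ?_
        rw [Real.norm_eq_abs, abs_of_nonneg (hnn x)]
        have h4 := fl_tr_ge hc0 (x := x) (by
          have : 1 / (2 * c) = (n : ℝ) + 1 := by rw [hcd]; field_simp
          rw [this]
          exact abs_le.2 hx)
        have h5 : 1 ≤ Real.pi ^ 2 / 4 * fl (tr c) x := by
          calc (1 : ℝ) = Real.pi ^ 2 / 4 * (4 / Real.pi ^ 2) := by field_simp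
            _ ≤ _ := by gcongr
        calc h x = 1 * h x := (one_mul _).symm
          _ ≤ Real.pi ^ 2 / 4 * fl (tr c) x * h x := by gcongr; exact hnn x
          _ = _ := by ring
      refine h3.trans ?_
      rw [intervalIntegral.integral_const_mul]
      have h6 : ∫ x in (-((n : ℝ) + 1))..((n : ℝ) + 1), fl (tr c) x * h x ≤ m := by
        rw [intervalIntegral.integral_of_le (by linarith)]
        refine (setIntegral_le_integral (hfi c hc0) (ae_of_all _ fun x =>
          mul_nonneg (fl_tr_nonneg hc0 x) (hnn x))).trans ?_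
        rw [hid c hc0 hc1]
        linarith
      gcongr
  obtain ⟨s, hs⟩ : ∃ s : ℝ → ℝ, s = fl h := ⟨_, rfl⟩
  have hsc : Continuous s := by rw [hs]; exact fl_cont hint
  have hse : ∀ x, s (-x) = s x := by rw [hs]; exact fun x => fl_even x
  have hs0 : ∀ x, 0 ≤ s x := by
    intro x
    rw [hs, ← ct_fl]
    exact fourier_nonneg hpsd hc habs hint x
  have hsi : Integrable s := by
    rw [hs, ← ct_fl]
    exact ct_int hpsd hc habs hint he
  have hinv : ∀ x, h x = fl s x := by
    intro x
    rw [hs]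
    exact (inv_gen hc hint he (by rw [← hs]; exact hsi) x).symm
  have htot : ∫ x, s x = 1 := by
    have := hinv 0
    rw [h1] at this
    rw [this]
    unfold fl
    simp
  -- the pairings
  have hpair : ∀ c : ℝ, 0 < c → c < 1 → ∫ x, tr c x * s x = m - c / 3 := by
    intro c hc0 hc1
    rw [← hid c hc0 hc1, hs]
    exact (parseval (tr_int hc0) hint (tr_even c) he).symm
  have habsI : ∀ c : ℝ, 0 < c → ∫ x, |x| * tr c x = c / 3 := by
    intro c hc0
    have h2 := cc_tr hc0
    unfold cc at h2
    have e1 : tr c 0 = 1 / c := by unfold tr; simp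
    rw [e1] at h2
    linarith
  obtain ⟨r, hr⟩ : ∃ r : ℝ → ℝ, ∀ x, r x = s x - (m - |x|) := ⟨_, fun x => rfl⟩
  have hrc : Continuous r := by
    have : r = fun x => s x - (m - |x|) := funext hr
    rw [this]
    fun_prop
  have hre : ∀ x, r (-x) = r x := by
    intro x
    rw [hr, hr, hse, abs_neg]
  have ht : ∀ c : ℝ, 0 < c → c < 1 → ∫ x, tr c x * r x = 0 := by
    intro c hc0 hc1
    have i1 : Integrable fun x => tr c x * s x :=
      ((tr_cont c).mul hsc).integrable_of_hasCompactSupport (adm_tr hc0).hcs.mul_right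
    have i2 : Integrable fun x => |x| * tr c x :=
      (continuous_abs.mul (tr_cont c)).integrable_of_hasCompactSupport (adm_tr hc0).hcs.mul_left
    have e : ∀ x, tr c x * r x = tr c x * s x - m * tr c x + |x| * tr c x := by
      intro x
      rw [hr]
      ring
    simp_rw [e]
    have j1 : Integrable fun x => tr c x * s x - m * tr c x := i1.sub ((tr_int hc0).const_mul m)
    rw [integral_add j1 i2, integral_sub i1
      ((tr_int hc0).const_mul m), integral_const_mul, hpair c hc0 hc1, int_tr hc0, habsI c hc0]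
    ring
  have hz : ∀ x : ℝ, 0 < x → x < 1 → s x = m - x := by
    intro x hx0 hx1
    have a1 := tent_null hrc hre ht hx0 hx1
    have a2 := tent_null (r := fun x => -r x) hrc.neg (fun x => by rw [hre])
      (fun c hc0 hc1 => by
        have := ht c hc0 hc1
        simp_rw [mul_neg]
        rw [integral_neg, this, neg_zero]) hx0 hx1
    have a3 : r x = 0 := by linarith
    rw [hr, abs_of_pos hx0] at a3
    linarith
  have hz2 : ∀ x : ℝ, x ≠ 0 → |x| < 1 → s x = m - |x| := by
    intro x hx0 hx1
    rcases abs_choice x with h5 | h5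
    · rw [h5] at hx1 ⊢
      exact hz x (by rw [← h5]; exact abs_pos.2 hx0) hx1
    · rw [← hse]
      rw [h5] at hx1 ⊢
      exact hz (-x) (by rw [← h5]; exact abs_pos.2 hx0) hx1
  have hm1 : m ≤ 1 := by
    have e1 : ∫ x in Ioo (0 : ℝ) 1, s x = m - 1 / 2 := by
      have : ∫ x in Ioo (0 : ℝ) 1, s x = ∫ x in Ioo (0 : ℝ) 1, (m - x) :=
        setIntegral_congr_fun measurableSet_Ioo fun x hx => hz x hx.1 hx.2
      rw [this, ← integral_Ioc_eq_integral_Ioo, ← intervalIntegral.integral_of_le zero_le_one,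
        intervalIntegral.integral_sub (by simp) (by simp), integral_id]
      simp
    have e2 : ∫ x in Ioo (-1 : ℝ) 0, s x = m - 1 / 2 := by
      have : ∫ x in Ioo (-1 : ℝ) 0, s x = ∫ x in Ioo (-1 : ℝ) 0, (m + x) :=
        setIntegral_congr_fun measurableSet_Ioo fun x hx => by
          have := hz2 x hx.2.ne (by rw [abs_of_neg hx.2]; linarith [hx.1])
          rw [this, abs_of_neg hx.2]
          ring
      rw [this, ← integral_Ioc_eq_integral_Ioo, ← intervalIntegral.integral_of_le (by norm_num),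
        intervalIntegral.integral_add (by simp) (by simp), integral_id]
      simp
      ring
    have e3 : ∫ x in Ioo (-1 : ℝ) 0 ∪ Ioo 0 1, s x ≤ ∫ x, s x :=
      setIntegral_le_integral hsi (ae_of_all _ hs0)
    rw [setIntegral_union (by
      rw [Set.disjoint_left]
      intro x hx hx2
      linarith [hx.2, hx2.1]) measurableSet_Ioo hsi.integrableOn hsi.integrableOn, e1, e2, htot] at e3
    linarith
  have hm2 : m = 1 := le_antisymm hm1 hm
  refine ⟨hm2, ?_⟩
  have htr : ∀ x : ℝ, |x| < 1 → tr 1 x = 1 - |x| := by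
    intro x hx
    unfold tr
    rw [div_one, div_one, max_eq_right (by linarith)]
  have hdiff : ∀ x, 0 ≤ s x - tr 1 x := by
    have hd : ∀ x, x ≠ 0 → 0 ≤ s x - tr 1 x := by
      intro x hx0
      rcases lt_or_ge |x| 1 with hx1 | hx1
      · rw [hz2 x hx0 hx1, htr x hx1, hm2]
        linarith
      · rw [tr_supp one_pos x hx1]
        linarith [hs0 x]
    intro x
    rcases eq_or_ne x 0 with hx | hx
    · have hcd : Continuous fun x => s x - tr 1 x := hsc.sub (tr_cont 1)
      have hdense : Dense {x : ℝ | x ≠ 0} := dense_compl_singleton 0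
      have hcl : IsClosed {x : ℝ | 0 ≤ s x - tr 1 x} := isClosed_le continuous_const hcd
      have : {x : ℝ | 0 ≤ s x - tr 1 x} = univ :=
        (hdense.mono hd).closure_eq ▸ hcl.closure_eq.symm
      have h9 : x ∈ {x : ℝ | 0 ≤ s x - tr 1 x} := by rw [this]; trivial
      exact h9
    · exact hd x hx
  have hzero : ∫ x, (s x - tr 1 x) = 0 := by
    rw [integral_sub hsi (tr_int one_pos), htot, int_tr one_pos, sub_self]
  have hae := (integral_eq_zero_iff_of_nonneg hdiff (hsi.sub (tr_int one_pos))).1 hzero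
  have heq : (fun x => s x - tr 1 x) = fun _ => (0 : ℝ) :=
    ((hsc.sub (tr_cont 1)).ae_eq_iff_eq volume continuous_const).1 hae
  have hst : s = tr 1 := by
    funext x
    have : s x - tr 1 x = 0 := congrFun heq x
    linarith
  intro x
  rw [hinv x, hst]

end Pool.Agent.N805.DT
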