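import Pool.Agent.N805.DT.A2

/-! # Pair correlation with a positive definite defect: conclusion -/

set_option autoImplicit false

open MeasureTheory Set Filter Topology
open scoped NNReal ENNReal FourierTransform

namespace Pool.Agent.N805.DT

open Pool.Agent.Y749.Rig
open Pool.Agent.H506R3.Mag (PSDFun)
open Pool.Agent.N805.FL (cc_tr fl_tr_ge)

/-- under the Riemann hypothesis, if the pair correlation exists and its defect is positive
definite, it is that of the sine process -/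
theorem pair_pd (RH : RiemannHypothesis) {l : Filter ℝ} [l.NeBot] (hl : l ≤ atTop) {h : ℝ → ℝ}
    (hc : Continuous h) (he : ∀ x, h (-x) = h x) (h1 : h 0 = 1)
    (hnn : ∀ x, 0 ≤ h x) (hb : ∀ x, h x ≤ 1) (hpsd : PSDFun h)
    (hN : ∀ α β : ℝ, 0 < α → α < β →
      Tendsto (fun T => (Mp T).real (Icc α β)) l (𝓝 (∫ x in α..β, (1 - h x)))) :
    ∀ x, h x = fl (tr 1) x := by
  obtain ⟨C, hC, hB⟩ := Mp_bdd
  have hC0 : 0 ≤ C := by linarith
  obtain ⟨U, hUd⟩ : ∃ U : Ultrafilter ℝ, U = Ultrafilter.of l := ⟨_, rfl⟩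
  have hUl : (U : Filter ℝ) ≤ l := by rw [hUd]; exact Ultrafilter.of_le l
  have hU : (U : Filter ℝ) ≤ atTop := hUl.trans hl
  obtain ⟨μ, hsf, hμ⟩ := exists_limit hC0 hB U hU
  have b1 := bdd_limit hU hC0 hB hμ
  have e1 := ev_limit hU ((eventually_ge_atTop 10).mono fun T hT => Mp_ev hT) hμ
  obtain ⟨g, hg⟩ : ∃ g : ℝ → ℝ, ∀ x, g x = 1 - h x := ⟨_, fun x => rfl⟩
  have hgf : g = fun x => 1 - h x := funext hg
  have hgc : Continuous g := by rw [hgf]; fun_prop
  have hg0 : ∀ x, 0 ≤ g x := fun x => by rw [hg]; linarith [hb x]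
  have hg1 : ∀ x, g x ≤ 1 := fun x => by rw [hg]; linarith [hnn x]
  have hge : ∀ x, g (-x) = g x := fun x => by rw [hg, hg, he]
  have hw : ∀ α β : ℝ, 0 < α → α ≤ β → μ.real (Icc α β) = ∫ x in α..β, g x := by
    intro α β h0 h2
    refine win_lim hC0 hB hU hμ hgc hg0 hg1 (fun α β h3 h4 => ?_) h0 h2
    simp_rw [hg]
    exact (hN α β h3 h4).mono_left hUl
  obtain ⟨m, hm⟩ : ∃ m : ℝ, m = μ.real {0} := ⟨_, rfl⟩
  have hm1 : 1 ≤ m := by
    have h3 := lim_lower (C := C) hC0 hB hU hμ (α := 0) (β := 0) (K := 1) (fun ε hε => by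
      simp_rw [Icc_self]
      exact hU (Mp_zero hε))
    rwa [Icc_self, ← hm] at h3
  have hmeas : μ = mg m g := by
    rw [hm]
    exact meas_mg (by linarith) b1 e1 hgc hge hg0 hw
  refine (pd_ident hc he h1 hnn hb hpsd hm1 fun c hc0 hc1 => ?_).2
  have h3 : ∫ x, fl (tr c) x ∂μ = cc (tr c) :=
    tendsto_nhds_unique (hμ _ (fl_cont (tr_int hc0)) (fl_qd (adm_tr hc0))).2
      ((test_limRH RH (adm_tr hc0) hc0 hc1).mono_left hU)
  rw [hmeas, mg_integral (by linarith) hgc hg0 hg1 (fl_cont (tr_int hc0)) (fl_qd (adm_tr hc0)),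
    cc_tr hc0, fl_tr_zero hc0, mul_one] at h3
  have i1 : Integrable (fl (tr c)) := fl_int (adm_tr hc0)
  have i2 : Integrable fun x => fl (tr c) x * h x := by
    refine i1.mul_bdd (c := 1) hc.aestronglyMeasurable (ae_of_all _ fun x => ?_)
    rw [Real.norm_eq_abs, abs_of_nonneg (hnn x)]
    exact hb x
  have e : ∀ x, fl (tr c) x * g x = fl (tr c) x - fl (tr c) x * h x := by
    intro x
    rw [hg]
    ring
  simp_rw [e] at h3
  rw [integral_sub i1 i2, int_fl (adm_tr hc0)] at h3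
  have e2 : tr c 0 = 1 / c := by unfold tr; simp
  rw [e2] at h3
  linarith

end Pool.Agent.N805.DT
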