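import Mathlib

/-! # Hermitian kernels with nonnegative determinants -/

set_option autoImplicit false

open Matrix
open scoped ComplexOrder ComplexConjugate

namespace Pool.Agent.N805.DT

lemma form_sub {n : ℕ} (A : Matrix (Fin (n + 1)) (Fin (n + 1)) ℂ) (i0 : Fin (n + 1))
    (w : Fin (n + 1) → ℂ) (hw : w i0 = 0) :
    star w ⬝ᵥ (A *ᵥ w) = star (w ∘ i0.succAbove) ⬝ᵥ
      ((A.submatrix i0.succAbove i0.succAbove) *ᵥ (w ∘ i0.succAbove)) := by
  simp only [dotProduct, mulVec, Pi.star_apply, Matrix.submatrix_apply, Function.comp_apply]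
  rw [Fin.sum_univ_succAbove _ i0, hw, star_zero, zero_mul, zero_add]
  refine Finset.sum_congr rfl fun i _ => ?_
  congr 1
  rw [Fin.sum_univ_succAbove _ i0, hw, mul_zero, zero_add]

lemma psd_step {n : ℕ} {A : Matrix (Fin (n + 1)) (Fin (n + 1)) ℂ} (hA : A.IsHermitian)
    (hdet : 0 ≤ A.det.re)
    (hsub : ∀ i0 : Fin (n + 1), (A.submatrix i0.succAbove i0.succAbove).PosSemidef) :
    A.PosSemidef := by
  rw [hA.posSemidef_iff_eigenvalues_nonneg]
  intro j
  by_contra hj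
  have hj' : hA.eigenvalues j < 0 := not_le.1 hj
  obtain ⟨k, hkj, hk⟩ : ∃ k, k ≠ j ∧ hA.eigenvalues k ≤ 0 := by
    by_contra hcon
    push Not at hcon
    have h1 : A.det.re = ∏ i, hA.eigenvalues i := by
      have e : (∏ i, ((hA.eigenvalues i : ℝ) : ℂ)) = ((∏ i, hA.eigenvalues i : ℝ) : ℂ) := by
        push_cast; rfl
      have h0 := hA.det_eq_prod_eigenvalues
      rw [h0]
      exact (congrArg Complex.re e).trans (Complex.ofReal_re _)
    rw [h1, ← Finset.mul_prod_erase Finset.univ _ (Finset.mem_univ j)] at hdet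
    have h2 : 0 < ∏ i ∈ Finset.univ.erase j, hA.eigenvalues i :=
      Finset.prod_pos fun i hi => hcon i (Finset.ne_of_mem_erase hi)
    have := mul_neg_of_neg_of_pos hj' h2
    linarith
  obtain ⟨v, hv⟩ : ∃ v : Fin (n + 1) → Fin (n + 1) → ℂ, v = fun i => ⇑(hA.eigenvectorBasis i) :=
    ⟨_, rfl⟩
  have hmul : ∀ i, A *ᵥ v i = (hA.eigenvalues i : ℂ) • v i := by
    intro i
    rw [hv]
    have := hA.mulVec_eigenvectorBasis i
    simp only at this ⊢
    rw [this]
    ext a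
    simp
  have horth : ∀ a b, star (v a) ⬝ᵥ v b = if a = b then 1 else 0 := by
    intro a b
    have h1 := orthonormal_iff_ite.1 hA.eigenvectorBasis.orthonormal a b
    rw [EuclideanSpace.inner_eq_star_dotProduct] at h1
    rw [← h1, hv, dotProduct_comm]
  have hvk : v k ≠ 0 := by
    intro h0
    have := horth k k
    rw [h0] at this
    simp at this
  obtain ⟨i0, hi0⟩ : ∃ i0, v k i0 ≠ 0 := by
    by_contra hcon
    push Not at hcon
    exact hvk (funext hcon)
  obtain ⟨c, hc⟩ : ∃ c : ℂ, c = v j i0 / v k i0 := ⟨_, rfl⟩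
  obtain ⟨w, hw⟩ : ∃ w : Fin (n + 1) → ℂ, w = v j - c • v k := ⟨_, rfl⟩
  have hw0 : w i0 = 0 := by
    rw [hw, hc]
    simp only [Pi.sub_apply, Pi.smul_apply, smul_eq_mul]
    rw [div_mul_cancel₀ _ hi0, sub_self]
  have hform : star w ⬝ᵥ (A *ᵥ w) = ((hA.eigenvalues j + ‖c‖ ^ 2 * hA.eigenvalues k : ℝ) : ℂ) := by
    have h1 : A *ᵥ w = (hA.eigenvalues j : ℂ) • v j - c • ((hA.eigenvalues k : ℂ) • v k) := by
      rw [hw, mulVec_sub, mulVec_smul, hmul, hmul]
    rw [h1, hw, star_sub, star_smul, sub_dotProduct, dotProduct_sub, dotProduct_sub]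
    simp only [dotProduct_smul, smul_dotProduct, horth, if_neg hkj.symm, if_neg hkj, if_true,
      smul_eq_mul, mul_zero, mul_one, sub_zero, zero_sub]
    have h2 : star c * c = ((‖c‖ ^ 2 : ℝ) : ℂ) := by
      rw [Complex.star_def, mul_comm, Complex.mul_conj, Complex.normSq_eq_norm_sq]
    push_cast at h2 ⊢
    rw [← h2]
    ring
  have h3 := (hsub i0).dotProduct_mulVec_nonneg (w ∘ i0.succAbove)
  rw [← form_sub A i0 w hw0, hform] at h3
  have h4 : 0 ≤ hA.eigenvalues j + ‖c‖ ^ 2 * hA.eigenvalues k := by exact_mod_cast h3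
  have h5 : ‖c‖ ^ 2 * hA.eigenvalues k ≤ 0 := mul_nonpos_of_nonneg_of_nonpos (by positivity) hk
  linarith

/-- a Hermitian kernel whose determinants are nonnegative is positive semidefinite -/
theorem psd_fin {K : Matrix ℝ ℝ ℂ} (hK : K.IsHermitian)
    (hdet : ∀ (n : ℕ) (x : Fin n → ℝ), 0 ≤ (K.submatrix x x).det.re) (n : ℕ) (x : Fin n → ℝ) :
    (K.submatrix x x).PosSemidef := by
  induction n with
  | zero =>
    rw [posSemidef_iff_dotProduct_mulVec]
    exact ⟨hK.submatrix x, fun y => by simp⟩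
  | succ n ih =>
    refine psd_step (hK.submatrix x) (hdet _ x) fun i0 => ?_
    rw [Matrix.submatrix_submatrix]
    exact ih _

/-- the quadratic form -/
theorem form_nonneg {K : ℝ → ℝ → ℂ}
    (h : ∀ (n : ℕ) (x : Fin n → ℝ), (Matrix.submatrix (Matrix.of K) x x).PosSemidef)
    {ι : Type} [Fintype ι] (x : ι → ℝ) (w : ι → ℂ) :
    0 ≤ (∑ i, ∑ j, conj (w i) * K (x i) (x j) * w j).re := by
  obtain ⟨e⟩ : Nonempty (Fin (Fintype.card ι) ≃ ι) := ⟨(Fintype.equivFin ι).symm⟩
  have h1 := (h (Fintype.card ι) (x ∘ e)).dotProduct_mulVec_nonneg (w ∘ e)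
  have h2 : star (w ∘ e) ⬝ᵥ ((Matrix.submatrix (Matrix.of K) (x ∘ e) (x ∘ e)) *ᵥ (w ∘ e)) =
      ∑ i, ∑ j, conj (w i) * K (x i) (x j) * w j := by
    simp only [dotProduct, mulVec, Pi.star_apply, Matrix.submatrix_apply, Function.comp_apply,
      Matrix.of_apply]
    rw [Fintype.sum_equiv e _ (fun i => ∑ j, conj (w i) * K (x i) (x j) * w j)]
    intro a
    rw [Finset.mul_sum, Fintype.sum_equiv e _ (fun j => conj (w (e a)) * K (x (e a)) (x j) * w j)]
    intro b
    rw [Complex.star_def]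
    ring
  rw [h2] at h1
  exact (Complex.nonneg_iff.1 h1).1

/-- the squares of the absolute values are positive semidefinite too -/
theorem sq_nonneg_form {K : ℝ → ℝ → ℂ}
    (h : ∀ (n : ℕ) (x : Fin n → ℝ), (Matrix.submatrix (Matrix.of K) x x).PosSemidef)
    {ι : Type} [Fintype ι] (x : ι → ℝ) (w : ι → ℝ) :
    0 ≤ ∑ i, ∑ j, w i * w j * ‖K (x i) (x j)‖ ^ 2 := by
  have h' : ∀ (n : ℕ) (x : Fin n → ℝ), (Matrix.submatrix (Matrix.of fun a b =>
      ((‖K a b‖ ^ 2 : ℝ) : ℂ)) x x).PosSemidef := by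
    intro n x
    have h1 := h n x
    have h2 : (((Matrix.submatrix (Matrix.of K) x x))ᵀ).PosSemidef := h1.transpose
    have h3 := h1.hadamard h2
    have h4 : (Matrix.submatrix (Matrix.of fun a b => ((‖K a b‖ ^ 2 : ℝ) : ℂ)) x x) =
        (Matrix.submatrix (Matrix.of K) x x) ⊙ (((Matrix.submatrix (Matrix.of K) x x))ᵀ) := by
      ext i j
      simp only [Matrix.submatrix_apply, Matrix.of_apply, Matrix.hadamard_apply,
        Matrix.transpose_apply]
      have h5 := h1.isHermitian.apply i j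
      simp only [Matrix.submatrix_apply, Matrix.of_apply] at h5
      rw [← Complex.normSq_eq_norm_sq, ← Complex.mul_conj, ← h5, Complex.star_def,
        Complex.conj_conj, mul_comm]
    rw [h4]
    exact h3
  have h6 := form_nonneg h' x (fun i => (w i : ℂ))
  have h7 : (∑ i, ∑ j, conj (w i : ℂ) * ((‖K (x i) (x j)‖ ^ 2 : ℝ) : ℂ) * (w j : ℂ)) =
      ((∑ i, ∑ j, w i * w j * ‖K (x i) (x j)‖ ^ 2 : ℝ) : ℂ) := by
    push_cast
    refine Finset.sum_congr rfl fun i _ => Finset.sum_congr rfl fun j _ => ?_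
    rw [Complex.conj_ofReal]
    ring
  rw [h7, Complex.ofReal_re] at h6
  exact h6

end Pool.Agent.N805.DT
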