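import Pool.Agent.N805.DT.B

/-! # Kernels whose absolute value is that of the sine kernel: the sine kernel -/

set_option autoImplicit false

open MeasureTheory Set Filter Topology
open scoped ComplexConjugate

namespace Pool.Agent.N805.DT

/-- the sine kernel -/
noncomputable def S (u : ℝ) : ℝ := Real.sinc (Real.pi * u)

lemma S_zero : S 0 = 1 := by unfold S; simp

lemma S_neg (u : ℝ) : S (-u) = S u := by
  unfold S
  rw [mul_neg, Real.sinc_neg]

lemma S_cont : Continuous S := Real.continuous_sinc.comp (by fun_prop)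

lemma S_eq {u : ℝ} (hu : u ≠ 0) : S u = Real.sin (Real.pi * u) / (Real.pi * u) := by
  unfold S
  exact Real.sinc_of_ne_zero (mul_ne_zero Real.pi_ne_zero hu)

lemma S_abs (u : ℝ) : |S u| ≤ 1 := Real.abs_sinc_le_one _

lemma S_int {n : ℤ} (hn : n ≠ 0) : S n = 0 := by
  rw [S_eq (by exact_mod_cast hn), mul_comm, Real.sin_int_mul_pi, zero_div]

/-- the Fourier integral of the interval -/
lemma S_four (u : ℝ) : ∫ t in (-(1 / 2) : ℝ)..(1 / 2), Complex.exp (2 * Real.pi * Complex.I * u * t) =
    (S u : ℂ) := by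
  have hpi := Real.pi_pos
  rcases eq_or_ne u 0 with h | h
  · rw [h, S_zero]
    simp
    norm_num
  · have hc : (2 * Real.pi * Complex.I * u : ℂ) ≠ 0 := by
      have h1 : (Real.pi : ℂ) ≠ 0 := by exact_mod_cast hpi.ne'
      have h2 : (u : ℂ) ≠ 0 := by exact_mod_cast h
      simp [h1, h2, Complex.I_ne_zero]
    rw [integral_exp_mul_complex hc, S_eq h]
    push_cast
    rw [Complex.sin]
    have hpi' : (Real.pi : ℂ) ≠ 0 := by exact_mod_cast hpi.ne'
    have h2 : (u : ℂ) ≠ 0 := by exact_mod_cast h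
    have e1 : 2 * (Real.pi : ℂ) * Complex.I * u * (1 / 2) = Real.pi * u * Complex.I := by ring
    have e2 : 2 * (Real.pi : ℂ) * Complex.I * u * -(1 / 2) = -(Real.pi * u) * Complex.I := by ring
    rw [e1, e2, div_div, div_eq_div_iff (by
      simp [hpi', h2, Complex.I_ne_zero]) (by simp [hpi', h2])]
    have hI : Complex.I * Complex.I = -1 := Complex.I_mul_I
    linear_combination (2 * Real.pi * u * (Complex.exp (Real.pi * u * Complex.I) -
      Complex.exp (-(Real.pi * u) * Complex.I))) * hI

/-- Parseval's formula for the exponential on the interval -/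
lemma S_sq (x : ℝ) : HasSum (fun n : ℤ => S (x - n) ^ 2) 1 := by
  have hab : (-(1 / 2) : ℝ) < 1 / 2 := by norm_num
  obtain ⟨f, hf⟩ : ∃ f : ℝ → ℂ, f = fun t : ℝ => Complex.exp (2 * Real.pi * Complex.I * x * t) :=
    ⟨_, rfl⟩
  have hfc : Continuous f := by rw [hf]; fun_prop
  have hfn : ∀ t, ‖f t‖ = 1 := by
    intro t
    rw [hf]
    have : (2 * Real.pi * Complex.I * x * t : ℂ) = ((2 * Real.pi * x * t : ℝ) : ℂ) * Complex.I := by
      push_cast; ring
    simp only
    rw [this, Complex.norm_exp_ofReal_mul_I]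
  have hL2 : MemLp f 2 (volume.restrict (Ioc (-(1 / 2) : ℝ) (1 / 2))) := by
    refine MemLp.of_bound hfc.aestronglyMeasurable 1 (ae_of_all _ fun t => ?_)
    rw [hfn]
  have h := hasSum_sq_fourierCoeffOn hab hL2
  have e1 : ((1 / 2 : ℝ) - -(1 / 2))⁻¹ • ∫ t in (-(1 / 2) : ℝ)..(1 / 2), ‖f t‖ ^ 2 = 1 := by
    simp_rw [hfn]
    norm_num
  rw [e1] at h
  refine h.congr_fun fun n => ?_
  rw [fourierCoeffOn_eq_integral f n hab]
  have e2 : (1 / ((1 / 2 : ℝ) - -(1 / 2))) • ∫ t in (-(1 / 2) : ℝ)..(1 / 2),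
      fourier (-n) (t : AddCircle ((1 / 2 : ℝ) - -(1 / 2))) • f t = (S (x - n) : ℂ) := by
    rw [← S_four]
    have : (1 / ((1 / 2 : ℝ) - -(1 / 2))) = 1 := by norm_num
    rw [this, one_smul]
    refine intervalIntegral.integral_congr fun t _ => ?_
    rw [fourier_coe_apply, hf, smul_eq_mul, ← Complex.exp_add]
    congr 1
    push_cast
    norm_num
    ring
  rw [e2, Complex.norm_real, Real.norm_eq_abs, sq_abs]

/-- the sine kernel is positive semidefinite -/
lemma S_psd {ι : Type} [Fintype ι] (x : ι → ℝ) (w : ι → ℂ) :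
    0 ≤ (∑ i, ∑ j, conj (w i) * (S (x i - x j) : ℂ) * w j).re := by
  have hab : (-(1 / 2) : ℝ) ≤ 1 / 2 := by norm_num
  obtain ⟨F, hF⟩ : ∃ F : ℝ → ℂ, F = fun t : ℝ => ∑ j, conj (w j) *
    Complex.exp (2 * Real.pi * Complex.I * x j * t) := ⟨_, rfl⟩
  have hFc : Continuous F := by rw [hF]; fun_prop
  have h1 : (∑ i, ∑ j, conj (w i) * (S (x i - x j) : ℂ) * w j) =
      ((∫ t in (-(1 / 2) : ℝ)..(1 / 2), ‖F t‖ ^ 2 : ℝ) : ℂ) := by
    rw [← intervalIntegral.integral_ofReal]
    have h2 : ∀ t : ℝ, ((‖F t‖ ^ 2 : ℝ) : ℂ) = ∑ i, ∑ j, conj (w i) * w j *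
        Complex.exp (2 * Real.pi * Complex.I * (x i - x j : ℝ) * t) := by
      intro t
      rw [← Complex.normSq_eq_norm_sq, ← Complex.mul_conj, hF]
      simp only
      rw [map_sum, Finset.sum_mul_sum]
      refine Finset.sum_congr rfl fun i _ => Finset.sum_congr rfl fun j _ => ?_
      rw [map_mul, Complex.conj_conj, ← Complex.exp_conj]
      have : conj (2 * Real.pi * Complex.I * x j * t : ℂ) = -(2 * Real.pi * Complex.I * x j * t) := by
        simp only [map_mul, Complex.conj_ofReal, Complex.conj_I, map_ofNat]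
        ring
      rw [this]
      have e : Complex.exp (2 * Real.pi * Complex.I * (x i - x j : ℝ) * t) =
          Complex.exp (2 * Real.pi * Complex.I * x i * t) *
          Complex.exp (-(2 * Real.pi * Complex.I * x j * t)) := by
        rw [← Complex.exp_add]
        congr 1
        push_cast
        ring
      rw [e]
      ring
    simp_rw [h2]
    have hii : ∀ i j, IntervalIntegrable (fun t : ℝ => conj (w i) * w j *
        Complex.exp (2 * Real.pi * Complex.I * (x i - x j : ℝ) * t)) volume (-(1 / 2)) (1 / 2) := by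
      intro i j
      apply Continuous.intervalIntegrable
      fun_prop
    rw [intervalIntegral.integral_finset_sum fun i _ => ?_]
    · refine Finset.sum_congr rfl fun i _ => ?_
      rw [intervalIntegral.integral_finset_sum fun j _ => hii i j]
      refine Finset.sum_congr rfl fun j _ => ?_
      rw [intervalIntegral.integral_const_mul, S_four]
      ring
    · have := IntervalIntegrable.sum Finset.univ (f := fun j => fun t : ℝ => conj (w i) * w j *
        Complex.exp (2 * Real.pi * Complex.I * (x i - x j : ℝ) * t)) fun j _ => hii i j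
      simpa only [Finset.sum_fn] using this
  rw [h1, Complex.ofReal_re]
  exact intervalIntegral.integral_nonneg hab fun t _ => by positivity

end Pool.Agent.N805.DT
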