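import Pool.Agent.N805.DT.C

/-! # Kernels whose absolute value is that of the sine kernel are equivalent to it -/

set_option autoImplicit false

open MeasureTheory Set Filter Topology
open scoped ComplexConjugate

namespace Pool.Agent.N805.DT

/-- positive semidefinite kernels with the absolute value of the sine kernel -/
structure SK (K : ℝ → ℝ → ℂ) : Prop where
  herm : ∀ x y, K y x = conj (K x y)
  one : ∀ x, K x x = 1
  psd : ∀ (ι : Type) [Fintype ι] (x : ι → ℝ) (w : ι → ℂ),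
    0 ≤ (∑ i, ∑ j, conj (w i) * K (x i) (x j) * w j).re
  abs : ∀ x y, ‖K x y‖ = |S (x - y)|

lemma sk_S : SK (fun x y => (S (x - y) : ℂ)) where
  herm := by
    intro x y
    rw [Complex.conj_ofReal, ← S_neg, neg_sub]
  one := by
    intro x
    simp [S_zero]
  psd := by
    intro ι _ x w
    exact S_psd x w
  abs := by
    intro x y
    rw [Complex.norm_real, Real.norm_eq_abs]

variable {K : ℝ → ℝ → ℂ}

lemma SK.diag (h : SK K) (n m : ℤ) : K n m = if n = m then 1 else 0 := by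
  by_cases hnm : n = m
  · rw [hnm, if_pos rfl, h.one]
  · rw [if_neg hnm, ← norm_eq_zero, h.abs]
    have : ((n : ℝ) - m) = ((n - m : ℤ) : ℝ) := by push_cast; ring
    rw [this, S_int (sub_ne_zero.2 hnm), abs_zero]

/-- Bessel's inequality -/
lemma SK.bessel (h : SK K) (x y : ℝ) (b : ℂ) (P : Finset ℤ) :
    ∑ n ∈ P, ‖K n x + b * K n y‖ ^ 2 ≤ 1 + ‖b‖ ^ 2 + 2 * (b * K x y).re := by
  classical
  obtain ⟨z, hz⟩ : ∃ z : ℤ → ℂ, ∀ n, z n = K n x + b * K n y := ⟨_, fun n => rfl⟩
  have h1 := h.psd (Option (Option P)) (fun o => o.elim x fun o' => o'.elim y fun n => ((n : ℤ) : ℝ))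
    (fun o => o.elim 1 fun o' => o'.elim b fun n => -z n)
  have h2 : (∑ i : Option (Option P), ∑ j : Option (Option P),
      conj (i.elim 1 fun o' => o'.elim b fun n => -z n) *
      K (i.elim x fun o' => o'.elim y fun n => ((n : ℤ) : ℝ))
        (j.elim x fun o' => o'.elim y fun n => ((n : ℤ) : ℝ)) *
      (j.elim 1 fun o' => o'.elim b fun n => -z n)) =
      ((1 + ‖b‖ ^ 2 + 2 * (b * K x y).re - ∑ n ∈ P, ‖z n‖ ^ 2 : ℝ) : ℂ) := by
    simp only [Fintype.sum_option, Option.elim_none, Option.elim_some]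
    have e3 : ∀ n : P, ∑ m : P, conj (-z n) * K ((n : ℤ) : ℝ) ((m : ℤ) : ℝ) * -z m =
        conj (z n) * z n := by
      intro n
      rw [Finset.sum_eq_single n]
      · rw [h.diag, if_pos rfl, map_neg]
        ring
      · intro m _ hmn
        rw [h.diag, if_neg (fun hc => hmn (Subtype.ext hc.symm))]
        ring
      · intro hn
        exact absurd (Finset.mem_univ _) hn
    have e4 : ∀ n : P, conj (-z n) * K ((n : ℤ) : ℝ) x * 1 + (conj (-z n) * K ((n : ℤ) : ℝ) y * b +
        ∑ m : P, conj (-z n) * K ((n : ℤ) : ℝ) ((m : ℤ) : ℝ) * -z m) = 0 := by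
      intro n
      rw [e3, map_neg, hz n]
      ring
    rw [Finset.sum_congr rfl fun n _ => e4 n, Finset.sum_const_zero, add_zero]
    have e5 : ∑ n : P, conj (1 : ℂ) * K x ((n : ℤ) : ℝ) * -z n +
        ∑ n : P, conj b * K y ((n : ℤ) : ℝ) * -z n = -∑ n ∈ P, ((‖z n‖ ^ 2 : ℝ) : ℂ) := by
      rw [← Finset.sum_coe_sort P, ← Finset.sum_add_distrib, ← Finset.sum_neg_distrib]
      refine Finset.sum_congr rfl fun n _ => ?_
      rw [← Complex.normSq_eq_norm_sq, ← Complex.mul_conj]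
      have e6 : conj (z n) = K x ((n : ℤ) : ℝ) + conj b * K y ((n : ℤ) : ℝ) := by
        rw [hz, map_add, map_mul, ← h.herm, ← h.herm]
      rw [e6, map_one]
      ring
    have e7 : conj (1 : ℂ) * K x x * 1 + (conj (1 : ℂ) * K x y * b +
        ∑ n : P, conj (1 : ℂ) * K x ((n : ℤ) : ℝ) * -z n) + (conj b * K y x * 1 + (conj b * K y y * b +
        ∑ n : P, conj b * K y ((n : ℤ) : ℝ) * -z n)) = 1 + (b * K x y + conj (b * K x y)) +
        b * conj b + (∑ n : P, conj (1 : ℂ) * K x ((n : ℤ) : ℝ) * -z n +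
        ∑ n : P, conj b * K y ((n : ℤ) : ℝ) * -z n) := by
      rw [h.one, h.one, h.herm x y, map_one, map_mul]
      ring
    rw [e7, e5, Complex.add_conj, Complex.mul_conj, Complex.normSq_eq_norm_sq]
    push_cast
    ring
  rw [h2, Complex.ofReal_re] at h1
  have h3 : ∑ n ∈ P, ‖K n x + b * K n y‖ ^ 2 = ∑ n ∈ P, ‖z n‖ ^ 2 :=
    Finset.sum_congr rfl fun n _ => by rw [hz]
  rw [h3]
  linarith

lemma SK.sq (h : SK K) (x : ℝ) : HasSum (fun n : ℤ => ‖K x n‖ ^ 2) 1 := by
  refine (S_sq x).congr_fun fun n => ?_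
  rw [h.abs, sq_abs]

lemma SK.sq' (h : SK K) (x : ℝ) : HasSum (fun n : ℤ => ‖K n x‖ ^ 2) 1 := by
  refine (h.sq x).congr_fun fun n => ?_
  rw [h.herm, Complex.norm_conj]

/-- the expansion over the integers -/
lemma SK.expand (h : SK K) (x y : ℝ) : HasSum (fun n : ℤ => K x n * K n y) (K x y) := by
  have hs : Summable fun n : ℤ => K x n * K n y := by
    refine Summable.of_norm_bounded (((h.sq x).summable.add (h.sq' y).summable)) fun n => ?_
    rw [norm_mul]
    nlinarith [sq_nonneg (‖K x n‖ - ‖K n y‖), norm_nonneg (K x n), norm_nonneg (K n y),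
      sq_nonneg (‖K x n‖ + ‖K n y‖)]
  obtain ⟨Z, hZ⟩ := hs
  have key : ∀ b : ℂ, (b * Z).re ≤ (b * K x y).re := by
    intro b
    have h1 : HasSum (fun n : ℤ => ‖K n x + b * K n y‖ ^ 2) (1 + ‖b‖ ^ 2 * 1 + 2 * (b * Z).re) := by
      have h2 : HasSum (fun n : ℤ => (b * (K x n * K n y)).re) (b * Z).re :=
        Complex.hasSum_re (hZ.mul_left b)
      refine (((h.sq' x).add ((h.sq' y).mul_left (‖b‖ ^ 2))).add (h2.mul_left 2)).congr_fun fun n => ?_
      have e1 : ‖K n x + b * K n y‖ ^ 2 = ‖K n x‖ ^ 2 + ‖b * K n y‖ ^ 2 +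
          2 * (b * K n y * conj (K n x)).re := by
        rw [← Complex.normSq_eq_norm_sq, add_comm (K n x), Complex.normSq_add,
          Complex.normSq_eq_norm_sq, Complex.normSq_eq_norm_sq]
        ring
      rw [e1, ← h.herm, norm_mul, mul_pow]
      congr 2
      ring_nf
    have h3 := hasSum_le_of_sum_le h1 (fun P => h.bessel x y b P)
    linarith
  have e : Z = K x y := by
    have k1 := key 1
    have k2 := key (-1)
    have k3 := key Complex.I
    have k4 := key (-Complex.I)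
    simp only [one_mul, neg_mul, Complex.neg_re, Complex.mul_re, Complex.I_re, zero_mul,
      Complex.I_im, zero_sub] at k1 k2 k3 k4
    apply Complex.ext <;> linarith
  rwa [e] at hZ

/-- equality in the triangle inequality -/
lemma tri_eq {ι : Type*} {z : ι → ℂ} {Z : ℂ} (hz : HasSum z Z) (hn : HasSum (fun i => ‖z i‖) ‖Z‖)
    (i : ι) : z i * (‖Z‖ : ℂ) = Z * (‖z i‖ : ℂ) := by
  rcases eq_or_ne Z 0 with h0 | h0
  · rw [h0, norm_zero] at hn
    have h1 := (hasSum_zero_iff_of_nonneg (fun i => norm_nonneg (z i))).1 hn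
    have h2 : z i = 0 := norm_eq_zero.1 (congrFun h1 i)
    rw [h0, h2]
  · have hZ : 0 < ‖Z‖ := norm_pos_iff.2 h0
    have hZ' : (‖Z‖ : ℂ) ≠ 0 := by exact_mod_cast hZ.ne'
    obtain ⟨u, hu⟩ : ∃ u : ℂ, u = conj Z / ‖Z‖ := ⟨_, rfl⟩
    have hun : ‖u‖ = 1 := by
      rw [hu, norm_div, Complex.norm_conj, Complex.norm_real, norm_norm, div_self hZ.ne']
    have h1 : HasSum (fun i => ‖z i‖ - (u * z i).re) (‖Z‖ - (u * Z).re) :=
      hn.sub (Complex.hasSum_re (hz.mul_left u))
    have h2 : u * Z = (‖Z‖ : ℂ) := by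
      rw [hu, div_mul_eq_mul_div, mul_comm, Complex.mul_conj, Complex.normSq_eq_norm_sq, sq]
      push_cast
      field_simp
    rw [h2, Complex.ofReal_re, sub_self] at h1
    have h3 : ∀ i, 0 ≤ ‖z i‖ - (u * z i).re := by
      intro i
      have := Complex.re_le_norm (u * z i)
      rw [norm_mul, hun, one_mul] at this
      linarith
    have h4 := (hasSum_zero_iff_of_nonneg h3).1 h1
    have h5 : (u * z i).re = ‖z i‖ := by
      have : ‖z i‖ - (u * z i).re = 0 := congrFun h4 i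
      linarith
    have h6 : u * z i = (‖z i‖ : ℂ) := by
      have h7 : ‖u * z i‖ = ‖z i‖ := by rw [norm_mul, hun, one_mul]
      have h8 : (u * z i).re = ‖u * z i‖ := by rw [h5, h7]
      have h9 := Complex.re_eq_norm.1 h8
      apply Complex.ext
      · rw [h5, Complex.ofReal_re]
      · rw [Complex.ofReal_im]
        exact (Complex.nonneg_iff.1 h9).2.symm
    rw [← h6, ← mul_assoc, mul_comm Z u, h2, mul_comm]

end Pool.Agent.N805.DT
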