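import Pool.Agent.N805.DT.C2

/-! # The phases of a kernel with the absolute value of the sine kernel -/

set_option autoImplicit false

open MeasureTheory Set Filter Topology
open scoped ComplexConjugate

namespace Pool.Agent.N805.DT

variable {K : ℝ → ℝ → ℂ}

/-- not an integer -/
def NI (x : ℝ) : Prop := ∀ n : ℤ, x ≠ n

lemma S_lat {x : ℝ} (hx : NI x) (n : ℤ) :
    S (x - n) = (-1) ^ n * Real.sin (Real.pi * x) / (Real.pi * (x - n)) := by
  rw [S_eq (sub_ne_zero.2 (hx n)), mul_sub, mul_comm Real.pi (n : ℝ), Real.sin_sub_int_mul_pi]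

lemma sin_ne {x : ℝ} (hx : NI x) : Real.sin (Real.pi * x) ≠ 0 := by
  intro h
  rw [Real.sin_eq_zero_iff] at h
  obtain ⟨n, hn⟩ := h
  have hpi := Real.pi_ne_zero
  refine hx n ?_
  rw [mul_comm] at hn
  exact (mul_left_cancel₀ hpi hn).symm

lemma S_lat_ne {x : ℝ} (hx : NI x) (n : ℤ) : S (x - n) ≠ 0 := by
  rw [S_lat hx]
  refine div_ne_zero (mul_ne_zero (zpow_ne_zero _ (by norm_num)) (sin_ne hx)) ?_
  exact mul_ne_zero Real.pi_ne_zero (sub_ne_zero.2 (hx n))

lemma SS_eq {x y : ℝ} (hx : NI x) (hy : NI y) (n : ℤ) : S (x - n) * S (y - n) =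
    Real.sin (Real.pi * x) * Real.sin (Real.pi * y) / (Real.pi ^ 2 * ((x - n) * (y - n))) := by
  have h1 : ((-1 : ℝ) ^ n) * (-1) ^ n = 1 := by
    rw [← mul_zpow]
    norm_num
  rw [S_lat hx, S_lat hy, div_mul_div_comm]
  congr 1
  · calc (-1 : ℝ) ^ n * Real.sin (Real.pi * x) * ((-1) ^ n * Real.sin (Real.pi * y)) =
        ((-1 : ℝ) ^ n * (-1) ^ n) * (Real.sin (Real.pi * x) * Real.sin (Real.pi * y)) := by ring
      _ = _ := by rw [h1, one_mul]
  · ring

lemma S_pos {u : ℝ} (hu : |u| < 1) : 0 < S u := by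
  have hpi := Real.pi_pos
  have key : ∀ v : ℝ, 0 ≤ v → v < 1 → 0 < S v := by
    intro v h0 h1
    rcases h0.eq_or_lt with h | h
    · rw [← h, S_zero]; exact one_pos
    · rw [S_eq h.ne']
      exact div_pos (Real.sin_pos_of_pos_of_lt_pi (by positivity) (by nlinarith)) (by positivity)
  rcases abs_choice u with h | h
  · rw [h] at hu
    exact key u (by rw [← h]; exact abs_nonneg _) hu
  · rw [h] at hu
    rw [← S_neg]
    exact key (-u) (by rw [← h]; exact abs_nonneg _) hu

lemma sin_cell {x : ℝ} {m : ℤ} : Real.sin (Real.pi * x) = (-1) ^ m * Real.sin (Real.pi * (x - m)) := by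
  have h1 : ((-1 : ℝ) ^ m) * (-1) ^ m = 1 := by
    rw [← mul_zpow]
    norm_num
  rw [mul_sub, mul_comm Real.pi (m : ℝ), Real.sin_sub_int_mul_pi, ← mul_assoc, h1, one_mul]

lemma sin_same {x y : ℝ} {m : ℤ} (hx : (m : ℝ) < x) (hx' : x < m + 1) (hy : (m : ℝ) < y)
    (hy' : y < m + 1) : 0 < Real.sin (Real.pi * x) * Real.sin (Real.pi * y) := by
  have hpi := Real.pi_pos
  have h1 : ((-1 : ℝ) ^ m) * (-1) ^ m = 1 := by
    rw [← mul_zpow]
    norm_num
  have h2 : 0 < Real.sin (Real.pi * (x - m)) :=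
    Real.sin_pos_of_pos_of_lt_pi (mul_pos hpi (by linarith)) (by nlinarith)
  have h3 : 0 < Real.sin (Real.pi * (y - m)) :=
    Real.sin_pos_of_pos_of_lt_pi (mul_pos hpi (by linarith)) (by nlinarith)
  rw [sin_cell (x := x) (m := m), sin_cell (x := y) (m := m)]
  calc 0 < ((-1 : ℝ) ^ m * (-1) ^ m) * (Real.sin (Real.pi * (x - m)) *
        Real.sin (Real.pi * (y - m))) := by rw [h1]; positivity
    _ = _ := by ring

lemma sin_adj {x y : ℝ} {m : ℤ} (hx : (m : ℝ) < x) (hx' : x < m + 1) (hy : (m : ℝ) + 1 < y)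
    (hy' : y < m + 2) : Real.sin (Real.pi * x) * Real.sin (Real.pi * y) < 0 := by
  have h := sin_same hx hx' (y := y - 1) (by linarith) (by linarith)
  rw [mul_sub, mul_one, Real.sin_sub_pi] at h
  linarith

/-- the terms of the expansion are proportional to those of the sine kernel -/
theorem SK.prop (h : SK K) {x y : ℝ} (hx : NI x) (hy : NI y) (hxy : x ≤ y) (hyx : y < x + 1) (n : ℤ) :
    K x n * K n y * (S (x - y) : ℂ) = K x y * ((S (x - n) * S (y - n) : ℝ) : ℂ) := by
  classical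
  have hpi := Real.pi_pos
  have hS : 0 < S (x - y) := S_pos (by rw [abs_lt]; constructor <;> linarith)
  obtain ⟨z, hz⟩ : ∃ z : ℤ → ℂ, ∀ n : ℤ, z n = K x n * K n y := ⟨_, fun n => rfl⟩
  obtain ⟨s, hs⟩ : ∃ s : ℤ → ℝ, ∀ n : ℤ, s n = S (x - n) * S (y - n) := ⟨_, fun n => rfl⟩
  have hzn : ∀ n, ‖z n‖ = |s n| := by
    intro n
    rw [hz, hs, norm_mul, h.abs, h.abs, ← abs_mul, ← S_neg ((n : ℝ) - y), neg_sub]
  have hsum : HasSum z (K x y) := (h.expand x y).congr_fun hz
  have hsumS : HasSum s (S (x - y)) := by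
    have h1 := Complex.hasSum_re (sk_S.expand x y)
    simp only [Complex.mul_re, Complex.ofReal_re, Complex.ofReal_im, mul_zero, sub_zero] at h1
    refine h1.congr_fun fun n => ?_
    rw [hs, ← S_neg (y - n), neg_sub]
  have hKn : ‖K x y‖ = S (x - y) := by rw [h.abs, abs_of_pos hS]
  rw [← hz, ← hs]
  obtain ⟨m, hm⟩ : ∃ m : ℤ, m = ⌊x⌋ := ⟨_, rfl⟩
  have hm1 : (m : ℝ) < x := by
    rw [hm]
    exact lt_of_le_of_ne (Int.floor_le x) (fun hc => hx ⌊x⌋ hc.symm)
  have hm2 : x < m + 1 := by rw [hm]; exact Int.lt_floor_add_one x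
  have hden : ∀ n : ℤ, s n = Real.sin (Real.pi * x) * Real.sin (Real.pi * y) /
      (Real.pi ^ 2 * ((x - n) * (y - n))) := fun n => by rw [hs, SS_eq hx hy]
  have hcast : ∀ n : ℤ, n ≤ m → (n : ℝ) ≤ m := fun n hn => by exact_mod_cast hn
  rcases lt_or_ge y (m + 1) with hA | hA
  · have hc0 := sin_same hm1 hm2 (show (m : ℝ) < y by linarith) hA
    have hpos : ∀ n, 0 < s n := by
      intro n
      rw [hden]
      refine div_pos hc0 (mul_pos (by positivity) ?_)
      rcases le_or_gt n m with h1 | h1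
      · have := hcast n h1
        exact mul_pos (by linarith) (by linarith)
      · have : ((m + 1 : ℤ) : ℝ) ≤ n := by exact_mod_cast h1
        push_cast at this
        exact mul_pos_of_neg_of_neg (by linarith) (by linarith)
    have hn : HasSum (fun n => ‖z n‖) ‖K x y‖ := by
      rw [hKn]
      refine hsumS.congr_fun fun n => ?_
      rw [hzn, abs_of_pos (hpos n)]
    have := tri_eq hsum hn n
    rw [hKn, hzn, abs_of_pos (hpos n)] at this
    exact this
  · have hA' : (m : ℝ) + 1 < y := by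
      refine lt_of_le_of_ne hA fun hc => hy (m + 1) ?_
      push_cast
      exact hc.symm
    have hc0 := sin_adj hm1 hm2 hA' (by linarith)
    have hpos : 0 < s (m + 1) := by
      rw [hden]
      refine div_pos_of_neg_of_neg hc0 (mul_neg_of_pos_of_neg (by positivity) ?_)
      push_cast
      exact mul_neg_of_neg_of_pos (by linarith) (by linarith)
    have hneg : ∀ n, n ≠ m + 1 → s n < 0 := by
      intro n hn
      rw [hden]
      refine div_neg_of_neg_of_pos hc0 (mul_pos (by positivity) ?_)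
      rcases lt_or_gt_of_ne hn with h1 | h1
      · have := hcast n (by omega)
        exact mul_pos (by linarith) (by linarith)
      · have : ((m + 1 + 1 : ℤ) : ℝ) ≤ n := by exact_mod_cast h1
        push_cast at this
        exact mul_pos_of_neg_of_neg (by linarith) (by linarith)
    have h1 : HasSum (Function.update (fun n => -z n) (m + 1) (K x y)) (z (m + 1)) := by
      have := hsum.neg.update (m + 1) (K x y)
      have e : K x y - -z (m + 1) + -K x y = z (m + 1) := by ring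
      rw [e] at this
      exact this
    have h2 : HasSum (fun n => ‖Function.update (fun n => -z n) (m + 1) (K x y) n‖) ‖z (m + 1)‖ := by
      have := hsumS.neg.update (m + 1) (S (x - y))
      have e : S (x - y) - -s (m + 1) + -S (x - y) = ‖z (m + 1)‖ := by
        rw [hzn, abs_of_pos hpos]
        ring
      rw [e] at this
      refine this.congr_fun fun n => ?_
      by_cases hn : n = m + 1
      · rw [hn, Function.update_self, Function.update_self, hKn]
      · rw [Function.update_of_ne hn, Function.update_of_ne hn, norm_neg, hzn, abs_of_neg (hneg n hn)]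
    have k0 : K x y * (s (m + 1) : ℂ) = z (m + 1) * (S (x - y) : ℂ) := by
      have := tri_eq h1 h2 (m + 1)
      rw [Function.update_self, hKn, hzn, abs_of_pos hpos] at this
      exact this
    by_cases hn : n = m + 1
    · rw [hn]
      exact k0.symm
    · have := tri_eq h1 h2 n
      rw [Function.update_of_ne hn, norm_neg, hzn, hzn, abs_of_pos hpos, abs_of_neg (hneg n hn)] at this
      have hs' : (s (m + 1) : ℂ) ≠ 0 := by exact_mod_cast hpos.ne'
      have k1 : z n * (s (m + 1) : ℂ) = z (m + 1) * (s n : ℂ) := by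
        push_cast at this
        linear_combination -this
      refine mul_right_cancel₀ hs' ?_
      calc z n * (S (x - y) : ℂ) * (s (m + 1) : ℂ) = (z n * (s (m + 1) : ℂ)) * (S (x - y) : ℂ) := by ring
        _ = (z (m + 1) * (S (x - y) : ℂ)) * (s n : ℂ) := by rw [k1]; ring
        _ = K x y * (s n : ℂ) * (s (m + 1) : ℂ) := by rw [← k0]; ring

/-- the phases -/
noncomputable def W (K : ℝ → ℝ → ℂ) (n : ℤ) (x : ℝ) : ℂ := K x n / (S (x - n) : ℂ)

lemma SK.W_norm (h : SK K) {x : ℝ} (hx : NI x) (n : ℤ) : ‖W K n x‖ = 1 := by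
  unfold W
  rw [norm_div, h.abs, Complex.norm_real, Real.norm_eq_abs]
  exact div_self (abs_ne_zero.2 (S_lat_ne hx n))

lemma SK.W_eq {x : ℝ} (hx : NI x) (n : ℤ) : K x n = W K n x * (S (x - n) : ℂ) := by
  unfold W
  have : (S (x - n) : ℂ) ≠ 0 := by exact_mod_cast S_lat_ne hx n
  field_simp

/-- the phases at two points are proportional -/
def R (K : ℝ → ℝ → ℂ) (x y : ℝ) : Prop := ∃ c : ℂ, ∀ n : ℤ, W K n x * conj (W K n y) = c

lemma R_symm {x y : ℝ} (h : R K x y) : R K y x := by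
  obtain ⟨c, hc⟩ := h
  refine ⟨conj c, fun n => ?_⟩
  rw [← hc n, map_mul, Complex.conj_conj, mul_comm]

lemma SK.R_trans (h : SK K) {x y z : ℝ} (hy : NI y) (h1 : R K x y) (h2 : R K y z) : R K x z := by
  obtain ⟨c, hc⟩ := h1
  obtain ⟨d, hd⟩ := h2
  refine ⟨c * d, fun n => ?_⟩
  rw [← hc n, ← hd n]
  have e : conj (W K n y) * W K n y = 1 := by
    rw [mul_comm, Complex.mul_conj, Complex.normSq_eq_norm_sq, h.W_norm hy]
    norm_num
  calc W K n x * conj (W K n z) = W K n x * 1 * conj (W K n z) := by ring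
    _ = _ := by rw [← e]; ring

lemma SK.R_near (h : SK K) {x y : ℝ} (hx : NI x) (hy : NI y) (hxy : x ≤ y) (hyx : y < x + 1) :
    R K x y := by
  have hS : 0 < S (x - y) := S_pos (by rw [abs_lt]; constructor <;> linarith)
  have hS' : (S (x - y) : ℂ) ≠ 0 := by exact_mod_cast hS.ne'
  refine ⟨K x y / (S (x - y) : ℂ), fun n => ?_⟩
  have h1 := h.prop hx hy hxy hyx n
  rw [h.herm y n, SK.W_eq (K := K) hx n, SK.W_eq (K := K) hy n, map_mul, Complex.conj_ofReal] at h1
  have s1 : (S (x - n) : ℂ) ≠ 0 := by exact_mod_cast S_lat_ne hx n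
  have s2 : (S (y - n) : ℂ) ≠ 0 := by exact_mod_cast S_lat_ne hy n
  rw [eq_div_iff hS']
  refine mul_right_cancel₀ (mul_ne_zero s1 s2) ?_
  push_cast at h1
  linear_combination h1

lemma ni_half (m : ℤ) : NI ((m : ℝ) + 1 / 2) := by
  intro n hn
  have h1 : (2 * (m - n) + 1 : ℤ) = 0 := by
    have : (2 * ((m : ℝ) - n) + 1) = 0 := by linarith
    exact_mod_cast this
  omega

lemma ni_quarter (m : ℤ) : NI ((m : ℝ) + 1 / 4) := by
  intro n hn
  have h1 : (4 * (m - n) + 1 : ℤ) = 0 := by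
    have : (4 * ((m : ℝ) - n) + 1) = 0 := by linarith
    exact_mod_cast this
  omega

lemma SK.R_step (h : SK K) (m : ℤ) : R K ((m : ℝ) + 1 / 2) (((m + 1 : ℤ) : ℝ) + 1 / 2) := by
  refine h.R_trans (ni_quarter (m + 1)) (h.R_near (ni_half m) (ni_quarter (m + 1)) ?_ ?_)
    (h.R_near (ni_quarter (m + 1)) (ni_half (m + 1)) ?_ ?_) <;> push_cast <;> linarith

lemma SK.R_half (h : SK K) (m : ℤ) : R K ((m : ℝ) + 1 / 2) (((0 : ℤ) : ℝ) + 1 / 2) := by
  have hrefl : R K (((0 : ℤ) : ℝ) + 1 / 2) (((0 : ℤ) : ℝ) + 1 / 2) :=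
    h.R_near (ni_half 0) (ni_half 0) le_rfl (by linarith)
  induction m using Int.induction_on with
  | zero => exact hrefl
  | succ i ih => exact h.R_trans (ni_half i) (R_symm (h.R_step i)) ih
  | pred i ih =>
    have h1 := h.R_step (-(i : ℤ) - 1)
    rw [sub_add_cancel] at h1
    exact h.R_trans (ni_half _) h1 ih

lemma SK.R_all (h : SK K) {x y : ℝ} (hx : NI x) (hy : NI y) : R K x y := by
  have key : ∀ x : ℝ, NI x → R K x (((0 : ℤ) : ℝ) + 1 / 2) := by
    intro x hx
    have h1 : (⌊x⌋ : ℝ) < x := lt_of_le_of_ne (Int.floor_le x) (fun hc => hx ⌊x⌋ hc.symm)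
    have h2 : x < ⌊x⌋ + 1 := Int.lt_floor_add_one x
    refine h.R_trans (ni_half ⌊x⌋) ?_ (h.R_half ⌊x⌋)
    rcases le_total x ((⌊x⌋ : ℝ) + 1 / 2) with h3 | h3
    · exact h.R_near hx (ni_half _) h3 (by linarith)
    · exact R_symm (h.R_near (ni_half _) hx h3 (by linarith))
  exact h.R_trans (ni_half 0) (key x hx) (R_symm (key y hy))

/-- away from the integers the kernel is equivalent to the sine kernel -/
theorem SK.gauge0 (h : SK K) {x y : ℝ} (hx : NI x) (hy : NI y) :
    K x y = W K 0 x * conj (W K 0 y) * (S (x - y) : ℂ) := by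
  obtain ⟨c, hc⟩ := h.R_all hx hy
  have h1 : HasSum (fun n : ℤ => c * ((S (x - n) * S (y - n) : ℝ) : ℂ)) (K x y) := by
    refine (h.expand x y).congr_fun fun n => ?_
    rw [h.herm y n, SK.W_eq (K := K) hx n, SK.W_eq (K := K) hy n, map_mul, Complex.conj_ofReal, ← hc n]
    push_cast
    ring
  have h2 : HasSum (fun n : ℤ => c * ((S (x - n) * S (y - n) : ℝ) : ℂ)) (c * (S (x - y) : ℂ)) := by
    have h3 := (sk_S.expand x y).mul_left c
    refine h3.congr_fun fun n => ?_
    push_cast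
    rw [← S_neg (y - n), neg_sub]
  rw [hc 0]
  exact h1.unique h2

end Pool.Agent.N805.DT
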