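import Pool.Agent.N805.DT.C3

/-! # Kernels with the absolute value of the sine kernel: conclusion -/

set_option autoImplicit false

open MeasureTheory Set Filter Topology
open scoped ComplexConjugate

namespace Pool.Agent.N805.DT

variable {K : ℝ → ℝ → ℂ}

lemma ni_compl : {x : ℝ | NI x} = (Set.range ((↑) : ℤ → ℝ))ᶜ := by
  ext x
  simp only [NI, mem_setOf_eq, mem_compl_iff, mem_range, not_exists]
  exact forall_congr' fun n => ⟨fun h h2 => h h2.symm, fun h h2 => h h2.symm⟩

lemma ni_dense : Dense {x : ℝ | NI x} := by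
  rw [ni_compl]
  exact (Set.countable_range _).dense_compl ℝ

/-- a continuous kernel with the absolute value of the sine kernel is equivalent to it -/
theorem SK.gauge (h : SK K) (hc : ∀ y, Continuous fun x => K x y) :
    ∃ g : ℝ → ℂ, (∀ x, ‖g x‖ = 1) ∧ ∀ x y, K x y = g x * conj (g y) * (S (x - y) : ℂ) := by
  classical
  obtain ⟨p, hp⟩ : ∃ p : ℝ, p = ((0 : ℤ) : ℝ) + 1 / 2 := ⟨_, rfl⟩
  have hpN : NI p := by rw [hp]; exact ni_half 0
  obtain ⟨q, hq⟩ : ∃ q : ℂ, q = W K 0 p := ⟨_, rfl⟩
  have hqn : ‖q‖ = 1 := by rw [hq]; exact h.W_norm hpN 0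
  have hq0 : q ≠ 0 := by
    intro h0
    rw [h0, norm_zero] at hqn
    exact zero_ne_one hqn
  have hqc : conj q ≠ 0 := by
    intro h0
    exact hq0 ((map_eq_zero _).1 h0)
  have hSp : ∀ n : ℤ, (S ((n : ℝ) - p) : ℂ) ≠ 0 := by
    intro n
    have h1 := S_lat_ne hpN n
    rw [← S_neg, neg_sub] at h1
    exact_mod_cast h1
  obtain ⟨g, hg⟩ : ∃ g : ℝ → ℂ, ∀ x, g x = if NI x then W K 0 x else
      K x p / ((S (x - p) : ℂ) * conj q) := ⟨_, fun x => rfl⟩
  have hg1 : ∀ x, NI x → g x = W K 0 x := fun x hx => by rw [hg, if_pos hx]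
  have hg2 : ∀ x, ¬NI x → g x = K x p / ((S (x - p) : ℂ) * conj q) := fun x hx => by
    rw [hg, if_neg hx]
  have hnotNI : ∀ x, ¬NI x → ∃ n : ℤ, x = n := by
    intro x hx
    unfold NI at hx
    push Not at hx
    exact hx
  have hgn : ∀ x, ‖g x‖ = 1 := by
    intro x
    by_cases hx : NI x
    · rw [hg1 x hx]; exact h.W_norm hx 0
    · obtain ⟨n, hn⟩ := hnotNI x hx
      have h1 : S (x - p) ≠ 0 := by
        rw [hn]; exact_mod_cast hSp n
      rw [hg2 x hx, norm_div, norm_mul, h.abs, Complex.norm_real, Real.norm_eq_abs,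
        Complex.norm_conj, hqn, mul_one, div_self (abs_ne_zero.2 h1)]
  -- one argument an integer
  have hone : ∀ x y, ¬NI x → NI y → K x y = g x * conj (g y) * (S (x - y) : ℂ) := by
    intro x y hx hy
    obtain ⟨n, hn⟩ := hnotNI x hx
    have h1 : ∀ x' : ℝ, NI x' → K x' y * ((S (x' - p) : ℂ) * conj q) =
        K x' p * (conj (W K 0 y) * (S (x' - y) : ℂ)) := by
      intro x' hx'
      rw [h.gauge0 hx' hy, h.gauge0 hx' hpN, ← hq]
      ring
    have hc1 : Continuous fun x' : ℝ => K x' y * ((S (x' - p) : ℂ) * conj q) := by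
      have := S_cont
      have := hc y
      fun_prop
    have hc2 : Continuous fun x' : ℝ => K x' p * (conj (W K 0 y) * (S (x' - y) : ℂ)) := by
      have := S_cont
      have := hc p
      fun_prop
    have h2 := Continuous.ext_on ni_dense hc1 hc2 h1
    have h3 : K x y * ((S (x - p) : ℂ) * conj q) = K x p * (conj (W K 0 y) * (S (x - y) : ℂ)) :=
      congrFun h2 x
    have h4 : (S (x - p) : ℂ) * conj q ≠ 0 := mul_ne_zero (by rw [hn]; exact hSp n) hqc
    rw [hg2 x hx, hg1 y hy]
    rw [eq_comm, div_mul_eq_mul_div, div_mul_eq_mul_div, div_eq_iff h4, h3]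
    ring
  refine ⟨g, hgn, fun x y => ?_⟩
  by_cases hx : NI x
  · by_cases hy : NI y
    · rw [hg1 x hx, hg1 y hy]; exact h.gauge0 hx hy
    · rw [h.herm y x, hone y x hy hx, map_mul, map_mul, Complex.conj_conj, Complex.conj_ofReal,
        ← S_neg, neg_sub]
      ring
  · by_cases hy : NI y
    · exact hone x y hx hy
    · obtain ⟨n, hn⟩ := hnotNI x hx
      obtain ⟨m, hm⟩ := hnotNI y hy
      by_cases hnm : n = m
      · have hxy : x = y := by rw [hn, hm, hnm]
        rw [hxy, h.one, sub_self, S_zero, Complex.mul_conj, Complex.normSq_eq_norm_sq, hgn]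
        norm_num
      · have h0 : S (x - y) = 0 := by
          have : x - y = ((n - m : ℤ) : ℝ) := by rw [hn, hm]; push_cast; ring
          rw [this]
          exact S_int (sub_ne_zero.2 hnm)
        have h1 : K x y = 0 := by rw [← norm_eq_zero, h.abs, h0, abs_zero]
        rw [h1, h0]
        simp

/-- equivalent kernels have the same determinants -/
lemma det_gauge {g : ℝ → ℂ} (hg : ∀ x, ‖g x‖ = 1)
    (h : ∀ x y, K x y = g x * conj (g y) * (S (x - y) : ℂ)) {ι : Type} [Fintype ι] [DecidableEq ι]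
    (x : ι → ℝ) : Matrix.det (Matrix.of fun i j => K (x i) (x j)) =
      ((Matrix.det (Matrix.of fun i j => S (x i - x j)) : ℝ) : ℂ) := by
  have h1 : (Matrix.of fun i j => K (x i) (x j)) = Matrix.of fun i j => g (x i) *
      (Matrix.of fun i j => conj (g (x j)) * (Matrix.of fun i j => (S (x i - x j) : ℂ)) i j) i j := by
    ext i j
    simp only [Matrix.of_apply]
    rw [h]
    ring
  rw [h1, Matrix.det_mul_column, Matrix.det_mul_row, ← mul_assoc, ← Finset.prod_mul_distrib]
  have h2 : ∏ i, g (x i) * conj (g (x i)) = 1 := by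
    refine Finset.prod_eq_one fun i _ => ?_
    rw [Complex.mul_conj, Complex.normSq_eq_norm_sq, hg]
    norm_num
  rw [h2, one_mul]
  have h3 := (Complex.ofRealHom).map_det (Matrix.of fun i j => S (x i - x j))
  rw [Complex.ofRealHom_eq_coe] at h3
  rw [h3]
  rfl

end Pool.Agent.N805.DT
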