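import Pool.Agent.N805.DT.A3
import Pool.Agent.N805.DT.C4
import Pool.Agent.R320.KL.Nk

/-! # Determinantal zeros: the counting functions -/

set_option autoImplicit false

open MeasureTheory Set Filter Topology
open scoped ComplexConjugate ComplexOrder

namespace Pool.Agent.N805.DT

open Pool.Agent.Y749.Rig
open SG (ord NZ zmult ZS)
open W200.HW (Ix mem_Ix)
open Pool.Agent.R320.KL (Nk)

/-- sums over indices -/
lemma sum_idx (RH : RiemannHypothesis) (T : ℝ) (f : ℝ → ℝ) :
    ∑ n ∈ Ix T, f (ord n) = ∑ s ∈ ZZ T, mm s * f s.im := by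
  classical
  have hmem : ∀ n ∈ Ix T, (1 / 2 + Complex.I * ord n : ℂ) ∈ ZZ T := by
    intro n hn
    obtain ⟨h0, h1, h2, h3, h4⟩ := W200.HW.zero_at RH hn
    rw [mem_ZZ]
    exact ⟨h0, h1, h2, h3.le, h4⟩
  rw [← Finset.sum_fiberwise_of_maps_to hmem (fun n => f (ord n))]
  refine Finset.sum_congr rfl fun s hs => ?_
  rw [mem_ZZ] at hs
  have him := zs_im_pos hs
  obtain ⟨h1, h2, h3, h4, h5⟩ := hs
  have hZS : s ∈ ZS T := ⟨h1, h2, h3, him, h5⟩
  have hre : s.re = 1 / 2 := by
    refine RH s h1 ?_ ?_
    · rintro ⟨n, hn⟩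
      rw [hn] at h2
      simp at h2
      have : (0 : ℝ) ≤ n := Nat.cast_nonneg n
      linarith
    · intro h
      rw [h] at h3
      simp at h3
  have hfil : (Ix T).filter (fun n => (1 / 2 + Complex.I * ord n : ℂ) = s) =
      (Ix T).filter (fun n => ord n = s.im) := by
    refine Finset.filter_congr fun n _ => ?_
    constructor
    · intro h
      rw [← h]
      simp
    · intro h
      rw [h]
      apply Complex.ext
      · simp [hre]
      · simp
  rw [hfil]
  have hcard := W200.HW.ord_fib RH hZS
  have hsum : ∑ n ∈ (Ix T).filter (fun n => ord n = s.im), f (ord n) =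
      ∑ n ∈ (Ix T).filter (fun n => ord n = s.im), f s.im :=
    Finset.sum_congr rfl fun n hn => by rw [(Finset.mem_filter.1 hn).2]
  rw [hsum, Finset.sum_const, hcard, nsmul_eq_mul]
  rfl

/-- the normalising factor -/
noncomputable def X (T : ℝ) : ℝ := T / (2 * Real.pi) * Real.log T

lemma X_nT (T : ℝ) : X T = nT T := by
  unfold X nT
  ring

/-- the pair counts -/
lemma Nk_pair (RH : RiemannHypothesis) {T : ℝ} (hT : 10 ≤ T) {α β : ℝ} (hα : 0 < α) :
    (Nk T (fun _ : Fin 1 => α) (fun _ : Fin 1 => β) : ℝ) / X T = (Mp T).real (Icc α β) := by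
  classical
  rw [Mp_real hT measurableSet_Icc, X_nT]
  congr 1
  obtain ⟨P, hP⟩ : ∃ P : Finset (ℕ × ℕ), P = ((Ix T) ×ˢ (Ix T)).filter
    (fun q => (ord q.1 - ord q.2) * Real.log T / (2 * Real.pi) ∈ Icc α β) := ⟨_, rfl⟩
  have hset : {j : Option (Fin 1) → ℕ | Function.Injective j ∧ (∀ i, 1 ≤ j i ∧ ord (j i) ≤ T) ∧
      ∀ i : Fin 1, (ord (j (some i)) - ord (j none)) * (Real.log T / (2 * Real.pi)) ∈ Icc α β} =
      ((P.image (fun q (o : Option (Fin 1)) => o.elim q.2 (fun _ => q.1)) :
        Finset (Option (Fin 1) → ℕ)) : Set (Option (Fin 1) → ℕ)) := by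
    ext j
    simp only [mem_setOf_eq, Finset.coe_image, mem_image, Finset.mem_coe, hP, Finset.mem_filter,
      Finset.mem_product, mem_Ix]
    constructor
    · rintro ⟨-, h2, h3⟩
      refine ⟨(j (some 0), j none), ⟨⟨h2 _, h2 _⟩, ?_⟩, ?_⟩
      · have := h3 0
        rwa [← mul_div_assoc] at this
      · funext o
        cases o with
        | none => rfl
        | some i => rw [Subsingleton.elim i 0]; rfl
    · rintro ⟨⟨a, b⟩, ⟨⟨h1, h2⟩, h3⟩, rfl⟩
      refine ⟨?_, ?_, ?_⟩
      · intro o o' hoo
        have hab : a ≠ b := by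
          intro hab
          simp only at h3
          rw [hab, sub_self, zero_mul, zero_div] at h3
          linarith [h3.1]
        cases o with
        | none =>
          cases o' with
          | none => rfl
          | some i' => exact absurd hoo (fun hc => hab (by simpa using hc.symm))
        | some i =>
          cases o' with
          | none => exact absurd hoo (fun hc => hab (by simpa using hc))
          | some i' => rw [Subsingleton.elim i i']
      · intro o
        cases o with
        | none => exact h2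
        | some i => exact h1
      · intro i
        simp only [Option.elim_some, Option.elim_none]
        rw [← mul_div_assoc]
        exact h3
  have hinj : Function.Injective (fun (q : ℕ × ℕ) (o : Option (Fin 1)) => o.elim q.2 (fun _ => q.1)) := by
    rintro ⟨a, b⟩ ⟨a', b'⟩ h
    have h1 : b = b' := congrFun h none
    have h2 : a = a' := congrFun h (some 0)
    rw [h1, h2]
  have hcard : (Nk T (fun _ : Fin 1 => α) (fun _ : Fin 1 => β) : ℝ) = (P.card : ℝ) := by
    unfold Nk
    rw [hset, Set.ncard_coe_finset, Finset.card_image_of_injective _ hinj]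
  rw [hcard, hP, Finset.card_filter, Nat.cast_sum, Finset.sum_product]
  unfold RR
  have h1 : ∀ a ∈ Ix T, ∑ b ∈ Ix T, (((if (ord a - ord b) * Real.log T / (2 * Real.pi) ∈ Icc α β
      then 1 else 0 : ℕ)) : ℝ) = ∑ s' ∈ ZZ T, mm s' * (Icc α β).indicator (fun _ => (1 : ℝ))
      ((ord a - s'.im) * Real.log T / (2 * Real.pi)) := by
    intro a _
    rw [← sum_idx RH T (fun y => (Icc α β).indicator (fun _ => (1 : ℝ))
      ((ord a - y) * Real.log T / (2 * Real.pi)))]
    refine Finset.sum_congr rfl fun b _ => ?_
    by_cases hb : (ord a - ord b) * Real.log T / (2 * Real.pi) ∈ Icc α β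
    · rw [if_pos hb, indicator_of_mem hb]; simp
    · rw [if_neg hb, indicator_of_notMem hb]; simp
  rw [Finset.sum_congr rfl h1, sum_idx RH T (fun y => ∑ s' ∈ ZZ T, mm s' *
    (Icc α β).indicator (fun _ => (1 : ℝ)) ((y - s'.im) * Real.log T / (2 * Real.pi)))]
  refine Finset.sum_congr rfl fun s _ => ?_
  rw [Finset.mul_sum]
  refine Finset.sum_congr rfl fun s' _ => ?_
  ring

/-- a continuous function with nonnegative integrals over boxes is nonnegative -/
lemma nonneg_of_box {k : ℕ} {f : (Fin k → ℝ) → ℝ} (hf : Continuous f)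
    (h : ∀ x y : Fin k → ℝ, (∀ i, x i < y i) → 0 ≤ ∫ u in Icc x y, f u) (u : Fin k → ℝ) : 0 ≤ f u := by
  by_contra hcon
  push Not at hcon
  have hnear : ∀ᶠ v in 𝓝 u, f v < f u / 2 :=
    hf.continuousAt.eventually (gt_mem_nhds (by linarith))
  obtain ⟨δ, hδ, hball⟩ := Metric.eventually_nhds_iff.1 hnear
  have h1 := h (fun i => u i - δ / 2) (fun i => u i + δ / 2) fun i => by linarith
  have hint : IntegrableOn f (Icc (fun i => u i - δ / 2) (fun i => u i + δ / 2)) :=
    hf.continuousOn.integrableOn_compact isCompact_Icc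
  have h2 : ∫ v in Icc (fun i => u i - δ / 2) (fun i => u i + δ / 2), f v ≤
      ∫ v in Icc (fun i => u i - δ / 2) (fun i => u i + δ / 2), f u / 2 := by
    refine setIntegral_mono_on hint (by
      refine integrableOn_const ?_ 
      exact (isCompact_Icc.measure_lt_top).ne) measurableSet_Icc fun v hv => ?_
    refine (hball ?_).le
    have h3 : dist v u ≤ δ / 2 := by
      rw [dist_pi_le_iff (by positivity)]
      intro i
      rw [Real.dist_eq, abs_le]
      have a1 := hv.1 i
      have a2 := hv.2 i
      simp only at a1 a2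
      constructor <;> linarith
    linarith
  rw [setIntegral_const, smul_eq_mul] at h2
  have h4 : 0 < (volume : Measure (Fin k → ℝ)).real
      (Icc (fun i => u i - δ / 2) (fun i => u i + δ / 2)) := by
    rw [Measure.real, Real.volume_Icc_pi_toReal (by intro i; simp only; linarith)]
    refine Finset.prod_pos fun i _ => ?_
    linarith
  nlinarith

/-- continuous functions with the same integrals over the intervals of `(0, ∞)` agree there -/
lemma eq_of_int {f g : ℝ → ℝ} (hf : Continuous f) (hg : Continuous g)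
    (h : ∀ α β : ℝ, 0 < α → α < β → ∫ x in α..β, f x = ∫ x in α..β, g x) {x : ℝ} (hx : 0 < x) :
    f x = g x := by
  have key : ∀ f g : ℝ → ℝ, Continuous f → Continuous g →
      (∀ α β : ℝ, 0 < α → α < β → ∫ x in α..β, f x = ∫ x in α..β, g x) → f x ≤ g x := by
    intro f g hf hg h
    by_contra hcon
    push Not at hcon
    have hc : Continuous fun y => f y - g y := hf.sub hg
    have hnear : ∀ᶠ y in 𝓝 x, 0 < f y - g y :=
      hc.continuousAt.eventually (lt_mem_nhds (by linarith))
    obtain ⟨δ, hδ, hball⟩ := Metric.eventually_nhds_iff.1 hnear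
    have h1 := h x (x + δ / 2) hx (by linarith)
    have h2 : 0 < ∫ y in x..(x + δ / 2), (f y - g y) := by
      refine intervalIntegral.intervalIntegral_pos_of_pos_on (hc.intervalIntegrable _ _)
        (fun y hy => hball ?_) (by linarith)
      rw [Real.dist_eq, abs_lt]
      constructor <;> linarith [hy.1, hy.2]
    rw [intervalIntegral.integral_sub (hf.intervalIntegrable _ _) (hg.intervalIntegrable _ _), h1,
      sub_self] at h2
    exact lt_irrefl _ h2
  exact le_antisymm (key f g hf hg h) (key g f hg hf fun α β h1 h2 => (h α β h1 h2).symm)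

end Pool.Agent.N805.DT
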