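import Pool.Agent.N805.DT.D

/-! # Determinantal zeros: conclusion -/

set_option autoImplicit false

open MeasureTheory Set Filter Topology
open scoped ComplexConjugate ComplexOrder

namespace Pool.Agent.N805.DT

open Pool.Agent.Y749.Rig
open Pool.Agent.R320.KL (Nk)

/-- the points `t` and `t + u i` -/
def pt {k : ℕ} (t : ℝ) (u : Fin k → ℝ) (o : Option (Fin k)) : ℝ := o.elim t fun i => t + u i

/-- the correlations of all orders are the determinants of `K` -/
def Determinantal (l : Filter ℝ) (K : ℝ → ℝ → ℂ) : Prop :=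
  ∀ k : ℕ, 1 ≤ k → ∀ (t : ℝ) (x y : Fin k → ℝ), (∀ i, x i < y i) →
    Tendsto (fun T => (Nk T x y : ℝ) / X T) l
      (𝓝 (∫ u in Icc x y, (Matrix.det (Matrix.of fun i j => K (pt t u i) (pt t u j))).re))

/-- the correlations of all orders are those of the sine process -/
def GUE (l : Filter ℝ) : Prop :=
  ∀ k : ℕ, 1 ≤ k → ∀ x y : Fin k → ℝ, (∀ i, x i < y i) →
    Tendsto (fun T => (Nk T x y : ℝ) / X T) l
      (𝓝 (∫ u in Icc x y, Matrix.det (Matrix.of fun i j : Option (Fin k) =>
        S (pt 0 u i - pt 0 u j))))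

variable {K : ℝ → ℝ → ℂ} {l : Filter ℝ}

lemma pt_sub {k : ℕ} (t : ℝ) (u : Fin k → ℝ) (i j : Option (Fin k)) :
    pt t u i - pt t u j = pt 0 u i - pt 0 u j := by
  unfold pt
  cases i <;> cases j <;> simp

lemma pt_cont {k : ℕ} (t : ℝ) (i : Option (Fin k)) : Continuous fun u : Fin k → ℝ => pt t u i := by
  unfold pt
  cases i <;> simp only [Option.elim_none, Option.elim_some] <;> fun_prop

lemma det_cont (hc : Continuous fun p : ℝ × ℝ => K p.1 p.2) {k : ℕ} (t : ℝ) :
    Continuous fun u : Fin k → ℝ =>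
      (Matrix.det (Matrix.of fun i j => K (pt t u i) (pt t u j))).re := by
  refine Complex.continuous_re.comp (Continuous.matrix_det ?_)
  refine continuous_matrix fun i j => ?_
  simp only [Matrix.of_apply]
  exact hc.comp ((pt_cont t i).prodMk (pt_cont t j))

/-- the integral over boxes of dimension one -/
lemma int_one {f : ℝ → ℝ} {α β : ℝ} (hab : α ≤ β) :
    ∫ u in Icc (fun _ : Fin 1 => α) (fun _ : Fin 1 => β), f (u 0) = ∫ x in α..β, f x := by
  have h := (volume_preserving_funUnique (Fin 1) ℝ)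
  have h2 := h.setIntegral_preimage_emb (MeasurableEquiv.measurableEmbedding _) f (Icc α β)
  have e : (MeasurableEquiv.funUnique (Fin 1) ℝ) ⁻¹' (Icc α β) =
      Icc (fun _ : Fin 1 => α) (fun _ : Fin 1 => β) := by
    ext u
    simp only [mem_preimage, mem_Icc, Pi.le_def, MeasurableEquiv.funUnique_apply]
    constructor
    · rintro ⟨h1, h2⟩
      exact ⟨fun i => by rw [Subsingleton.elim i default]; exact h1,
        fun i => by rw [Subsingleton.elim i default]; exact h2⟩
    · rintro ⟨h1, h2⟩
      exact ⟨h1 _, h2 _⟩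
  rw [e] at h2
  rw [intervalIntegral.integral_of_le hab, ← integral_Icc_eq_integral_Ioc, ← h2]
  rfl

lemma det_two (hH : ∀ x y, K y x = conj (K x y)) (h1 : ∀ x, K x x = 1) (p : Option (Fin 1) → ℝ) :
    (Matrix.det (Matrix.of fun i j => K (p i) (p j))).re = 1 - ‖K (p none) (p (some 0))‖ ^ 2 := by
  have e := Matrix.det_submatrix_equiv_self (finSuccEquiv 1)
    (Matrix.of fun i j => K (p i) (p j))
  rw [← e, Matrix.det_fin_two]
  have e0 : finSuccEquiv 1 0 = none := finSuccEquiv_zero
  have e1 : finSuccEquiv 1 1 = some 0 := finSuccEquiv_succ 0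
  simp only [Matrix.submatrix_apply, Matrix.of_apply, e0, e1]
  rw [h1, h1, hH (p none), Complex.mul_conj, Complex.normSq_eq_norm_sq, one_mul, Complex.sub_re,
    Complex.one_re, Complex.ofReal_re]

/-- the kernel of determinantal zeros is positive semidefinite -/
lemma det_psd [l.NeBot] (hl : l ≤ atTop) (hc : Continuous fun p : ℝ × ℝ => K p.1 p.2)
    (hH : ∀ x y, K y x = conj (K x y)) (h1 : ∀ x, K x x = 1) (hD : Determinantal l K)
    (n : ℕ) (x : Fin n → ℝ) : (Matrix.submatrix (Matrix.of K) x x).PosSemidef := by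
  have hherm : (Matrix.of K).IsHermitian := by
    ext a b
    simp only [Matrix.conjTranspose_apply, Matrix.of_apply]
    rw [hH a b, Complex.star_def, Complex.conj_conj]
  refine psd_fin hherm (fun n x => ?_) n x
  match n, x with
  | 0, x => simp
  | 1, x =>
    rw [Matrix.det_fin_one, Matrix.submatrix_apply, Matrix.of_apply, h1]
    simp
  | k + 2, x =>
    have h2 : ∀ u : Fin (k + 1) → ℝ,
        0 ≤ (Matrix.det (Matrix.of fun i j => K (pt (x 0) u i) (pt (x 0) u j))).re := by
      refine nonneg_of_box (det_cont hc (x 0)) fun a b hab => ?_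
      refine ge_of_tendsto (hD (k + 1) (by omega) (x 0) a b hab) ?_
      filter_upwards [hl (eventually_ge_atTop 10)] with T hT
      have := Pool.Agent.Y749.Rig.nT_pos hT
      rw [X_nT]
      positivity
    have h3 := h2 fun i => x i.succ - x 0
    have e := Matrix.det_submatrix_equiv_self (finSuccEquiv (k + 1))
      (Matrix.of fun i j => K (pt (x 0) (fun i : Fin (k + 1) => x i.succ - x 0) i)
        (pt (x 0) (fun i : Fin (k + 1) => x i.succ - x 0) j))
    rw [← e] at h3
    have e2 : (Matrix.of fun i j => K (pt (x 0) (fun i : Fin (k + 1) => x i.succ - x 0) i)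
        (pt (x 0) (fun i : Fin (k + 1) => x i.succ - x 0) j)).submatrix (finSuccEquiv (k + 1))
        (finSuccEquiv (k + 1)) = Matrix.submatrix (Matrix.of K) x x := by
      have hp : ∀ i : Fin (k + 2), pt (x 0) (fun i : Fin (k + 1) => x i.succ - x 0)
          (finSuccEquiv (k + 1) i) = x i := by
        intro i
        refine Fin.cases ?_ (fun i => ?_) i
        · rw [finSuccEquiv_zero]; rfl
        · rw [finSuccEquiv_succ]
          unfold pt
          simp
      ext i j
      simp only [Matrix.submatrix_apply, Matrix.of_apply]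
      rw [hp, hp]
    rw [e2] at h3
    exact h3

/-- the pair correlation of determinantal zeros -/
lemma det_pair (RH : RiemannHypothesis) (hl : l ≤ atTop)
    (hH : ∀ x y, K y x = conj (K x y)) (h1 : ∀ x, K x x = 1) (hD : Determinantal l K)
    (t : ℝ) {α β : ℝ} (h0 : 0 < α) (hab : α < β) :
    Tendsto (fun T => (Mp T).real (Icc α β)) l (𝓝 (∫ v in α..β, (1 - ‖K t (t + v)‖ ^ 2))) := by
  have h2 := hD 1 le_rfl t (fun _ => α) (fun _ => β) fun _ => hab
  have e : (∫ u in Icc (fun _ : Fin 1 => α) (fun _ : Fin 1 => β),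
      (Matrix.det (Matrix.of fun i j => K (pt t u i) (pt t u j))).re) =
      ∫ v in α..β, (1 - ‖K t (t + v)‖ ^ 2) := by
    rw [← int_one hab.le]
    refine integral_congr_ae (ae_of_all _ fun u => ?_)
    simp only
    rw [det_two hH h1]
    rfl
  rw [e] at h2
  refine h2.congr' ?_
  filter_upwards [hl (eventually_ge_atTop 10)] with T hT
  exact Nk_pair RH hT h0

/-- the kernel of determinantal zeros has the absolute value of the sine kernel -/
theorem det_sk (RH : RiemannHypothesis) [l.NeBot] (hl : l ≤ atTop)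
    (hc : Continuous fun p : ℝ × ℝ => K p.1 p.2)
    (hH : ∀ x y, K y x = conj (K x y)) (h1 : ∀ x, K x x = 1) (hD : Determinantal l K) : SK K := by
  have hpsd := det_psd hl hc hH h1 hD
  have hrow : ∀ t, Continuous fun v => 1 - ‖K t (t + v)‖ ^ 2 := by
    intro t
    have : Continuous fun v : ℝ => K t (t + v) :=
      hc.comp (continuous_const.prodMk (continuous_const.add continuous_id))
    fun_prop
  obtain ⟨h, hh⟩ : ∃ h : ℝ → ℝ, ∀ v, h v = ‖K 0 v‖ ^ 2 := ⟨_, fun v => rfl⟩
  have hpos : ∀ t v : ℝ, 0 < v → ‖K t (t + v)‖ ^ 2 = h v := by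
    intro t v hv
    have h2 := eq_of_int (hrow t) (hrow 0) (fun α β h3 h4 =>
      tendsto_nhds_unique (det_pair RH hl hH h1 hD t h3 h4) (det_pair RH hl hH h1 hD 0 h3 h4)) hv
    rw [zero_add] at h2
    rw [hh]
    linarith
  have hlt : ∀ x y : ℝ, x < y → ‖K x y‖ ^ 2 = h (y - x) := by
    intro x y hxy
    rw [← hpos x (y - x) (by linarith), add_sub_cancel]
  have hnorm : ∀ x y, ‖K x y‖ = ‖K y x‖ := by
    intro x y
    rw [hH y x, Complex.norm_conj]
  have he : ∀ v, h (-v) = h v := by
    have key : ∀ v : ℝ, 0 < v → h (-v) = h v := by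
      intro v hv
      rw [hh, hnorm, hlt (-v) 0 (by linarith), zero_sub, neg_neg]
    intro v
    rcases lt_trichotomy v 0 with h2 | h2 | h2
    · have := key (-v) (by linarith)
      rw [neg_neg] at this
      exact this.symm
    · rw [h2, neg_zero]
    · exact key v h2
  have hall : ∀ x y, ‖K x y‖ ^ 2 = h (x - y) := by
    intro x y
    rcases lt_trichotomy x y with h2 | h2 | h2
    · rw [hlt x y h2, ← he, neg_sub]
    · rw [h2, sub_self, h1, hh, h1]
    · rw [hnorm, hlt y x h2]
  have h0 : h 0 = 1 := by rw [hh, h1]; simp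
  have hhf : h = fun v => ‖K 0 v‖ ^ 2 := funext hh
  have hcont : Continuous h := by
    rw [hhf]
    have : Continuous fun v : ℝ => K 0 v := hc.comp (continuous_const.prodMk continuous_id)
    fun_prop
  have hnn : ∀ x, 0 ≤ h x := fun x => by rw [hh]; positivity
  have hb : ∀ x, h x ≤ 1 := by
    intro x
    have h2 := ((hpsd 2 ![0, x]).det_nonneg)
    rw [Matrix.det_fin_two] at h2
    simp only [Matrix.submatrix_apply, Matrix.of_apply, Matrix.cons_val_zero, Matrix.cons_val_one]
      at h2
    rw [h1, h1, hH 0 x, Complex.mul_conj, Complex.normSq_eq_norm_sq, ← hh, one_mul] at h2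
    have h3 : (0 : ℝ) ≤ 1 - h x := by exact_mod_cast h2
    linarith
  have hPSD : Pool.Agent.H506R3.Mag.PSDFun h := by
    intro s w
    have h2 := sq_nonneg_form hpsd (fun i : s => (i : ℝ)) (fun i : s => w i)
    rw [← Finset.sum_coe_sort s]
    refine h2.trans (le_of_eq ?_)
    refine Finset.sum_congr rfl fun x _ => ?_
    rw [← Finset.sum_coe_sort s]
    refine Finset.sum_congr rfl fun y _ => ?_
    rw [hall]
  have hid := pair_pd RH hl hcont he h0 hnn hb hPSD (fun α β h3 h4 => by
    have := det_pair RH hl hH h1 hD 0 h3 h4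
    simp_rw [zero_add, ← hh] at this
    exact this)
  refine ⟨hH, h1, fun ι _ x w => form_nonneg hpsd x w, fun x y => ?_⟩
  have h2 : ‖K x y‖ ^ 2 = S (x - y) ^ 2 := by
    rw [hall, hid]
    rcases eq_or_ne (x - y) 0 with h3 | h3
    · rw [h3, fl_tr_zero one_pos, S_zero, one_pow]
    · rw [fl_tr one_pos h3, S_eq h3, mul_one]
  rw [← abs_of_nonneg (norm_nonneg (K x y))]
  exact (sq_eq_sq_iff_abs_eq_abs _ _).1 h2

/-- from a kernel equivalent to the sine kernel to the correlations -/
lemma det_gue {g : ℝ → ℂ} (hg : ∀ x, ‖g x‖ = 1)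
    (h : ∀ x y, K x y = g x * conj (g y) * (S (x - y) : ℂ)) : Determinantal l K ↔ GUE l := by
  have key : ∀ {k : ℕ} (t : ℝ) (x y : Fin k → ℝ), (∫ u in Icc x y,
      (Matrix.det (Matrix.of fun i j => K (pt t u i) (pt t u j))).re) =
      ∫ u in Icc x y, Matrix.det (Matrix.of fun i j : Option (Fin k) =>
        S (pt 0 u i - pt 0 u j)) := by
    intro k t x y
    refine integral_congr_ae (ae_of_all _ fun u => ?_)
    simp only
    rw [det_gauge hg h, Complex.ofReal_re]
    simp_rw [pt_sub t u]
  constructor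
  · intro hD k hk x y hxy
    rw [← key 0]
    exact hD k hk 0 x y hxy
  · intro hG k hk t x y hxy
    rw [key t]
    exact hG k hk x y hxy

/-- **the zeros are asymptotically determinantal with a continuous Hermitian kernel if and only if
their correlations are those of the sine process** -/
theorem main (RH : RiemannHypothesis) (l : Filter ℝ) [l.NeBot] (hl : l ≤ atTop) :
    (∀ K : ℝ → ℝ → ℂ, Continuous (fun p : ℝ × ℝ => K p.1 p.2) → (∀ x y, K y x = conj (K x y)) →
      (∀ x, K x x = 1) → Determinantal l K →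
      (∃ g : ℝ → ℂ, Continuous g ∧ (∀ x, ‖g x‖ = 1) ∧
        ∀ x y, K x y = g x * conj (g y) * (S (x - y) : ℂ)) ∧ GUE l) ∧
    (GUE l → Determinantal l fun x y => (S (x - y) : ℂ)) := by
  constructor
  · intro K hc hH h1 hD
    have hSK := det_sk RH hl hc hH h1 hD
    have hcol : ∀ y, Continuous fun x => K x y := fun y =>
      hc.comp (continuous_id.prodMk continuous_const)
    obtain ⟨g, hg, hgK⟩ := hSK.gauge hcol
    refine ⟨⟨g, ?_, hg, hgK⟩, (det_gue hg hgK).1 hD⟩
    rw [continuous_iff_continuousAt]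
    intro x0
    have hS : ∀ᶠ x in 𝓝 x0, S (x - x0) ≠ 0 := by
      have : Continuous fun x => S (x - x0) := S_cont.comp (by fun_prop)
      refine this.continuousAt.eventually_ne ?_
      rw [sub_self, S_zero]
      exact one_ne_zero
    have hg0 : conj (g x0) ≠ 0 := by
      intro h0
      have h2 := hg x0
      rw [(map_eq_zero _).1 h0, norm_zero] at h2
      exact zero_ne_one h2
    have hev : ∀ᶠ x in 𝓝 x0, K x x0 / (conj (g x0) * (S (x - x0) : ℂ)) = g x := by
      filter_upwards [hS] with x hx
      have hx' : (S (x - x0) : ℂ) ≠ 0 := by exact_mod_cast hx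
      rw [hgK, mul_assoc, mul_div_assoc, div_self (mul_ne_zero hg0 hx'), mul_one]
    refine ContinuousAt.congr ?_ hev
    refine ((hcol x0).continuousAt).div ?_ ?_
    · have := S_cont
      exact (by fun_prop : Continuous fun x : ℝ => conj (g x0) * (S (x - x0) : ℂ)).continuousAt
    · rw [sub_self, S_zero]
      simpa using hg0
  · intro hG
    refine (det_gue (g := fun _ => 1) (fun x => by simp) fun x y => by simp).2 hG

end Pool.Agent.N805.DT
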